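import Pool.Agent.Work.MP_667be6_lc.DefsL
import Mathlib.SetTheory.Cardinal.Regular
import Mathlib.SetTheory.ZFC.Cardinal
import Mathlib.SetTheory.ZFC.Ordinal
import Mathlib.Data.W.Cardinal

/-!
Basic facts on the constructible hierarchy.
-/

universe u

namespace Pool.Agent.Work.MP_667be6_lc

open Cardinal Ordinal Order

section
variable {M : ZFSet.{u}} {n : ℕ} {v : Fin n → ZFSet.{u}}
@[simp] theorem sat_mem {i j : Fin n} : Sat M (.mem i j) v ↔ v i ∈ v j := Iff.rfl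
@[simp] theorem sat_eq {i j : Fin n} : Sat M (.eq i j) v ↔ v i = v j := Iff.rfl
@[simp] theorem sat_neg {φ : Fml n} : Sat M (.neg φ) v ↔ ¬ Sat M φ v := Iff.rfl
@[simp] theorem sat_and {φ ψ : Fml n} : Sat M (.and φ ψ) v ↔ Sat M φ v ∧ Sat M ψ v := Iff.rfl
@[simp] theorem sat_ex {φ : Fml (n + 1)} :
    Sat M (.ex φ) v ↔ ∃ a ∈ M, Sat M φ (Fin.cons a v) := Iff.rfl
end

/-- The subset of `L α` defined by `φ` with parameters `v`. -/
noncomputable def dset (α : Ordinal.{u}) {n : ℕ} (φ : Fml (n + 1)) (v : Fin n → ZFSet.{u}) :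
    ZFSet.{u} :=
  ZFSet.sep (fun a => Sat (L α) φ (Fin.cons a v)) (L α)

theorem mem_dset {α : Ordinal.{u}} {n : ℕ} {φ : Fml (n + 1)} {v : Fin n → ZFSet.{u}}
    {a : ZFSet.{u}} : a ∈ dset α φ v ↔ a ∈ L α ∧ Sat (L α) φ (Fin.cons a v) := by
  simp [dset]

theorem L_zero : L (0 : Ordinal.{u}) = ∅ := by simp [L]

theorem L_add_one (α : Ordinal.{u}) : L (α + 1) = Def (L α) := by simp [L]

theorem L_limit {α : Ordinal.{u}} (h : IsSuccLimit α) :
    L α = ZFSet.iUnion fun β : Set.Iio α => L β.1 := by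
  rw [L, Ordinal.limitRecOn_limit _ _ _ _ h]
  rfl

theorem mem_Def_L {α : Ordinal.{u}} {x : ZFSet.{u}} :
    x ∈ Def (L α) ↔ ∃ (n : ℕ) (φ : Fml (n + 1)) (v : Fin n → ZFSet.{u}),
      (∀ i, v i ∈ L α) ∧ x = dset α φ v := by
  simp only [Def, ZFSet.mem_sep, ZFSet.mem_powerset]
  constructor
  · rintro ⟨-, n, φ, v, hv, h⟩
    exact ⟨n, φ, v, hv, ZFSet.ext fun a => by rw [h, mem_dset]⟩
  · rintro ⟨n, φ, v, hv, rfl⟩
    exact ⟨fun a ha => (mem_dset.1 ha).1, n, φ, v, hv, fun a => mem_dset⟩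

theorem subset_of_mem_Def {M x : ZFSet.{u}} (h : x ∈ Def M) : x ⊆ M := by
  simp only [Def, ZFSet.mem_sep, ZFSet.mem_powerset] at h
  exact h.1

/-- the formula `v₀ ∈ v₁` -/
def fmem : Fml 2 := .mem 0 1

theorem dset_fmem {α : Ordinal.{u}} {x : ZFSet.{u}} (hx : x ⊆ L α) :
    dset α fmem ![x] = x := by
  ext a
  rw [mem_dset]
  simp only [fmem, sat_mem]
  constructor
  · rintro ⟨-, h⟩; simpa using h
  · intro h; exact ⟨hx h, by simpa using h⟩

theorem L_trans_and_mono (α : Ordinal.{u}) :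
    (∀ x ∈ L α, x ⊆ L α) ∧ ∀ β < α, Def (L β) ⊆ L α := by
  induction α using Ordinal.limitRecOn with
  | zero => simp [L_zero]
  | add_one α ih =>
    have hsub : L α ⊆ Def (L α) := by
      intro x hx
      rw [mem_Def_L]
      exact ⟨1, fmem, ![x], by simpa using hx, (dset_fmem (ih.1 x hx)).symm⟩
    rw [L_add_one]
    refine ⟨fun x hx y hy => hsub (subset_of_mem_Def hx hy), fun β hβ => ?_⟩
    rcases (lt_add_one_iff.1 hβ).eq_or_lt with rfl | hβ
    · exact fun x hx => hx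
    · exact fun x hx => hsub (ih.2 β hβ hx)
  | limit α hα ih =>
    rw [L_limit hα]
    refine ⟨fun x hx y hy => ?_, fun β hβ x hx => ?_⟩
    · rw [ZFSet.mem_iUnion] at hx ⊢
      obtain ⟨β, hβ⟩ := hx
      exact ⟨β, (ih β.1 β.2).1 x hβ hy⟩
    · rw [ZFSet.mem_iUnion]
      refine ⟨⟨β + 1, hα.add_one_lt hβ⟩, ?_⟩
      rw [L_add_one]; exact hx

theorem L_trans {α : Ordinal.{u}} {x : ZFSet.{u}} (hx : x ∈ L α) : x ⊆ L α :=
  (L_trans_and_mono α).1 x hx

theorem mem_L_iff {α : Ordinal.{u}} {x : ZFSet.{u}} : x ∈ L α ↔ ∃ β < α, x ∈ Def (L β) := by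
  refine ⟨?_, fun ⟨β, hβ, hx⟩ => (L_trans_and_mono α).2 β hβ hx⟩
  induction α using Ordinal.limitRecOn with
  | zero => simp [L_zero]
  | add_one α _ => rw [L_add_one]; exact fun hx => ⟨α, lt_add_one α, hx⟩
  | limit α hα ih =>
    rw [L_limit hα, ZFSet.mem_iUnion]
    rintro ⟨β, hβ⟩
    obtain ⟨γ, hγ, hx⟩ := ih β.1 β.2 hβ
    exact ⟨γ, hγ.trans β.2, hx⟩

theorem L_mono {α β : Ordinal.{u}} (h : α ≤ β) : L α ⊆ L β := by
  intro x hx
  rw [mem_L_iff] at hx ⊢
  obtain ⟨γ, hγ, hx⟩ := hx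
  exact ⟨γ, hγ.trans_le h, hx⟩

theorem dset_mem_L {α β : Ordinal.{u}} (h : α < β) {n : ℕ} (φ : Fml (n + 1))
    {v : Fin n → ZFSet.{u}} (hv : ∀ i, v i ∈ L α) : dset α φ v ∈ L β :=
  mem_L_iff.2 ⟨α, h, mem_Def_L.2 ⟨n, φ, v, hv, rfl⟩⟩

theorem dset_subset {α : Ordinal.{u}} {n : ℕ} (φ : Fml (n + 1))
    (v : Fin n → ZFSet.{u}) : dset α φ v ⊆ L α := fun _ ha => (mem_dset.1 ha).1

theorem L_mem_L {α β : Ordinal.{u}} (h : α < β) : L α ∈ L β := by
  have : L α = dset α (Fml.eq 0 0 : Fml (0 + 1)) ![] := by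
    ext a; simp [mem_dset]
  rw [this]
  exact dset_mem_L h _ (by simp)

theorem L_injective : Function.Injective (L : Ordinal.{u} → ZFSet.{u}) := by
  intro α β h
  by_contra hne
  rcases lt_or_gt_of_ne hne with h' | h'
  · have := L_mem_L h'
    rw [h] at this
    exact ZFSet.mem_irrefl _ this
  · have := L_mem_L h'
    rw [h] at this
    exact ZFSet.mem_irrefl _ this

theorem card_le_card_L (α : Ordinal.{u}) : α.card ≤ ZFSet.card (L α) := by
  rw [← Cardinal.lift_le.{u + 1}, ← ZFSet.cardinalMk_coe_sort, ← Cardinal.mk_Iio_ordinal]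
  refine Cardinal.mk_le_of_injective
    (f := fun β : Set.Iio α => (⟨L β.1, L_mem_L β.2⟩ : L α)) ?_
  intro β γ h
  exact Subtype.ext (L_injective (congrArg Subtype.val h))

/-- The elements of `L β` that are generated using only stages in `X`. -/
inductive Hull (X : Set Ordinal.{u}) : Ordinal.{u} → ZFSet.{u} → Prop
  | mk {α β : Ordinal.{u}} {n : ℕ} (φ : Fml (n + 1)) (v : Fin n → ZFSet.{u}) (hα : α ∈ X)
      (hαβ : α < β) (h : ∀ i, Hull X α (v i)) : Hull X β (dset α φ v)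

theorem Hull.mem_L {X : Set Ordinal.{u}} {β : Ordinal.{u}} {x : ZFSet.{u}} (h : Hull X β x) :
    x ∈ L β := by
  induction h with
  | mk φ v hα hαβ h ih => exact dset_mem_L hαβ φ ih

theorem Hull.mono {X Y : Set Ordinal.{u}} (hXY : X ⊆ Y) {β : Ordinal.{u}} {x : ZFSet.{u}}
    (h : Hull X β x) : Hull Y β x := by
  induction h with
  | mk φ v hα hαβ h ih => exact Hull.mk φ v (hXY hα) hαβ ih

theorem Hull.finite {X : Set Ordinal.{u}} {β : Ordinal.{u}} {x : ZFSet.{u}} (h : Hull X β x) :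
    ∃ s : Finset Ordinal.{u}, (s : Set Ordinal.{u}) ⊆ X ∧ Hull s β x := by
  classical
  induction h with
  | @mk α β n φ v hα hαβ h ih =>
    choose s hs using ih
    refine ⟨insert α (Finset.univ.biUnion s), ?_, Hull.mk φ v (by simp) hαβ fun i => ?_⟩
    · intro a ha
      simp only [Finset.coe_insert, Finset.coe_biUnion, Finset.coe_univ, Set.mem_univ,
        Set.iUnion_true, Set.mem_insert_iff, Set.mem_iUnion] at ha
      rcases ha with rfl | ⟨i, hi⟩
      · exact hα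
      · exact (hs i).1 hi
    · refine (hs i).2.mono fun a ha => ?_
      simp only [Finset.coe_insert, Finset.coe_biUnion, Finset.coe_univ, Set.mem_univ,
        Set.iUnion_true, Set.mem_insert_iff, Set.mem_iUnion]
      exact Or.inr ⟨i, ha⟩

theorem hull_of_Iio_subset {X : Set Ordinal.{u}} {β : Ordinal.{u}} (hX : Set.Iio β ⊆ X)
    {x : ZFSet.{u}} (hx : x ∈ L β) : Hull X β x := by
  induction β using WellFoundedLT.induction generalizing x with
  | ind β ih =>
    obtain ⟨α, hα, hx⟩ := mem_L_iff.1 hx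
    obtain ⟨n, φ, v, hv, rfl⟩ := mem_Def_L.1 hx
    exact Hull.mk φ v (hX hα) hα fun i =>
      ih α hα (fun γ hγ => hX (lt_trans hγ hα)) (hv i)

theorem exists_finite_hull {β : Ordinal.{u}} {x : ZFSet.{u}} (hx : x ∈ L β) :
    ∃ s : Finset Ordinal.{u}, Hull s β x := by
  obtain ⟨s, -, hs⟩ := (hull_of_Iio_subset (X := Set.univ) (Set.subset_univ _) hx).finite
  exact ⟨s, hs⟩

/-- encoding of formulas, to see that there are countably many -/
instance : Countable (Σ n, Fml n) := by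
  let enc : {n : ℕ} → Fml n → ℕ := fun {n} φ =>
    Fml.rec (motive := fun _ _ => ℕ)
      (fun i j => Nat.pair 0 (Nat.pair i j)) (fun i j => Nat.pair 1 (Nat.pair i j))
      (fun _ a => Nat.pair 2 a) (fun _ _ a b => Nat.pair 3 (Nat.pair a b))
      (fun _ a => Nat.pair 4 a) φ
  have henc : ∀ {n : ℕ} (φ ψ : Fml n), enc φ = enc ψ → φ = ψ := by
    intro n φ
    induction φ with
    | mem i j => intro ψ h; cases ψ <;> simp_all [enc, Fin.ext_iff]
    | eq i j => intro ψ h; cases ψ <;> simp_all [enc, Fin.ext_iff]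
    | neg φ ih =>
      intro ψ h
      cases ψ <;> simp only [enc, Nat.pair_eq_pair] at h <;> try omega
      rw [ih _ h.2]
    | and φ φ' ih ih' =>
      intro ψ h
      cases ψ <;> simp only [enc, Nat.pair_eq_pair] at h <;> try omega
      rw [ih _ h.2.1, ih' _ h.2.2]
    | ex φ ih =>
      intro ψ h
      cases ψ <;> simp only [enc, Nat.pair_eq_pair] at h <;> try omega
      rw [ih _ h.2]
  have : ∀ n, Countable (Fml n) := fun n =>
    Function.Injective.countable (f := fun φ : Fml n => enc φ) fun φ ψ h => henc φ ψ h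
  infer_instance

instance (n : ℕ) : Countable (Fml n) :=
  Function.Injective.countable (f := fun φ : Fml n => (⟨n, φ⟩ : Σ n, Fml n))
    sigma_mk_injective

theorem card_hull_le (X : Set Ordinal.{u}) :
    #{x : ZFSet.{u} | ∃ β, Hull X β x} ≤ max #X ℵ₀ := by
  let A : Type (u + 1) := X × Σ n : ℕ, Fml (n + 1)
  let B : A → Type := fun a => Fin a.2.1
  let val : WType B → ZFSet.{u} := fun τ =>
    WType.rec (motive := fun _ => ZFSet.{u}) (fun a _ v => dset a.1.1 a.2.2 v) τ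
  have hsub : {x : ZFSet.{u} | ∃ β, Hull X β x} ⊆ Set.range val := by
    rintro x ⟨β, h⟩
    induction h with
    | @mk α β n φ v hα hαβ h ih =>
      choose τ hτ using ih
      refine ⟨WType.mk (⟨⟨α, hα⟩, n, φ⟩ : A) τ, ?_⟩
      simp only [val]
      congr 1
      funext i
      exact hτ i
  refine (Cardinal.mk_le_mk_of_subset hsub).trans (Cardinal.mk_range_le.trans ?_)
  refine WType.cardinalMk_le_max_aleph0_of_finite'.trans ?_
  have hA : #A ≤ max #X ℵ₀ := by
    simp only [A, Cardinal.mk_prod, Cardinal.lift_uzero]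
    have h1 : Cardinal.lift.{u + 1} #(Σ n : ℕ, Fml (n + 1)) ≤ ℵ₀ := by
      rw [Cardinal.lift_le_aleph0]
      exact Cardinal.mk_le_aleph0
    calc #X * Cardinal.lift.{u + 1} #(Σ n : ℕ, Fml (n + 1))
        ≤ max #X ℵ₀ * max #X ℵ₀ := mul_le_mul' (le_max_left _ _) (h1.trans (le_max_right _ _))
      _ = max #X ℵ₀ := Cardinal.mul_eq_self (le_max_right _ _)
  rw [Cardinal.lift_uzero]
  exact max_le hA (le_max_right _ _)

theorem card_L_le (α : Ordinal.{u}) : ZFSet.card (L α) ≤ max α.card ℵ₀ := by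
  rw [← Cardinal.lift_le.{u + 1}, ← ZFSet.cardinalMk_coe_sort, Cardinal.lift_max,
    ← Cardinal.mk_Iio_ordinal, Cardinal.lift_aleph0]
  refine le_trans ?_ (card_hull_le (Set.Iio α))
  exact Cardinal.mk_le_mk_of_subset (s := (L α : Set ZFSet.{u}))
    fun x hx => ⟨α, hull_of_Iio_subset le_rfl hx⟩

end Pool.Agent.Work.MP_667be6_lc
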