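import Mathlib.SetTheory.Cardinal.Regular
import Mathlib.SetTheory.Cardinal.Pigeonhole

/-!
The two combinatorial lemmas: a system of small set mappings that catches every pair of nodes at
all but finitely many levels, and the existence of pairs that are free at many given levels.
-/

universe u

namespace Pool.Agent.Work.MP_667be6_lc

open Cardinal Ordinal Order Set

theorem mk_biUnion_le_of_le {ι α : Type u} {s : Set ι} {A : ι → Set α} {c : Cardinal.{u}}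
    (hc : ℵ₀ ≤ c) (hs : #s ≤ c) (hA : ∀ x ∈ s, #(A x) ≤ c) : #(⋃ x ∈ s, A x) ≤ c :=
  (mk_biUnion_le A s).trans (mul_le_of_le hc hs (ciSup_le' fun x => hA x.1 x.2))

theorem mk_Iio_lt_self {c : Cardinal.{u}} (i : c.ord.ToType) : #(Iio i) < c := by
  simpa using mk_Iio_lt i (by simp)

theorem mk_setOf_Iio_lt {β : Type u} [LinearOrder β] [WellFoundedLT β] (c : Cardinal.{u}) :
    #{x : β | #(Iio x) < c} ≤ c := by
  rw [← mk_ord_toType c]
  refine mk_le_of_injective (f := fun x : {x : β | #(Iio x) < #c.ord.ToType} =>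
    ToType.mk (⟨typein (α := β) (· < ·) x.1, ?_⟩ : Iio c.ord)) ?_
  · have := x.2
    simp only [mk_ord_toType, mem_ofPred_eq] at this
    rw [mem_Iio, Cardinal.lt_ord, card_typein]
    exact this
  · intro x y h
    have := congrArg Subtype.val (ToType.mk.injective h)
    exact Subtype.ext ((typein (α := β) (· < ·)).injective this)

theorem exists_filtration {α K : Type u} {S : Set α} {l : Cardinal.{u}} (hS : #S ≤ l)
    {D : Set K} {ν : K → Cardinal.{u}} (hD : ∀ c < l, ∃ γ ∈ D, c < ν γ) :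
    ∃ F : K → Set α, (∀ γ, #(F γ) ≤ ν γ) ∧ ∀ s ∈ S, ∃ γ ∈ D, s ∈ F γ := by
  rw [← mk_ord_toType l] at hS
  obtain ⟨e⟩ := (Cardinal.le_def _ _).1 hS
  refine ⟨fun γ => Subtype.val '' (e ⁻¹' {x | #(Iio x) < ν γ}), fun γ => ?_, fun s hs => ?_⟩
  · exact mk_image_le.trans
      ((mk_preimage_of_injective _ _ e.injective).trans (mk_setOf_Iio_lt _))
  · obtain ⟨γ, hγ, h⟩ := hD _ (mk_Iio_lt_self (e ⟨s, hs⟩))
    exact ⟨γ, hγ, ⟨s, hs⟩, h, rfl⟩

variable {K : Type u} [LinearOrder K]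

/-- the functions coding the nodes of level `β` -/
def P (M : K → Set K) (β : K) : Set (K → K) :=
  {f | (∀ a < β, f a ∈ M a) ∧ ∀ a, ¬ a < β → f a = a}

/-- restriction -/
def res (β : K) (f : K → K) : K → K := fun a => if a < β then f a else a

theorem res_of_lt {β a : K} (h : a < β) (f : K → K) : res β f a = f a := if_pos h

theorem res_mem {M : K → Set K} {β γ : K} (h : γ ≤ β) {f : K → K} (hf : f ∈ P M β) :
    res γ f ∈ P M γ :=
  ⟨fun a ha => by rw [res_of_lt ha]; exact hf.1 a (ha.trans_le h), fun a ha => if_neg ha⟩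

/-- the set of levels at which a pair is free -/
def free (G : (K → K) → K → Set K) (β : K) (p q : K → K) : Set K :=
  {a | a < β ∧ p a ∉ G q a ∧ q a ∉ G p a}

theorem exists_system [WellFoundedLT K] (M : K → Set K) (ν : K → Cardinal.{u})
    (hmono : Monotone ν) (hinf : ∀ a, ℵ₀ ≤ ν a)
    (hlim : ∀ β : K, (∃ a, a < β) → (∀ γ < β, ∃ a < β, γ < a) →
      ∃ D : Set K, ∃ a < β, (∀ γ ∈ D, γ < β) ∧ #D ≤ ν a ∧
        ∃ l, ℵ₀ ≤ l ∧ #(P M β) ≤ succ l ∧ ∀ c < l, ∃ γ ∈ D, c < ν γ) (β : K) :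
    ∃ G : (K → K) → K → Set K, (∀ f, ∀ a < β, #(G f a) ≤ ν a) ∧
      ∀ p ∈ P M β, ∀ q ∈ P M β, (free G β p q).Finite := by
  classical
  induction β using WellFoundedLT.induction with
  | ind β ih =>
  choose! G hG using ih
  by_cases h0 : ∃ a, a < β
  swap
  · refine ⟨fun _ _ => ∅, by simp, fun p _ q _ => ?_⟩
    exact Set.finite_empty.subset fun a ha => h0 ⟨a, ha.1⟩
  by_cases h1 : ∀ γ < β, ∃ a < β, γ < a
  swap
  · push Not at h1
    obtain ⟨γ, hγ, h1⟩ := h1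
    refine ⟨fun f a => if a < γ then G γ (res γ f) a else ∅, fun f a _ => ?_,
      fun p hp q hq => ?_⟩
    · by_cases ha : a < γ
      · simpa [ha] using (hG γ hγ).1 _ a ha
      · simp [ha]
    · refine (((hG γ hγ).2 _ (res_mem hγ.le hp) _ (res_mem hγ.le hq)).insert γ).subset ?_
      rintro a ⟨ha, h2, h3⟩
      rcases (h1 a ha).eq_or_lt with rfl | ha'
      · exact Or.inl rfl
      · refine Or.inr ⟨ha', ?_, ?_⟩
        · simpa [ha', res_of_lt ha'] using h2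
        · simpa [ha', res_of_lt ha'] using h3
  obtain ⟨D, a₀, ha₀, hDβ, hDcard, l, hl, hP, hD⟩ := hlim β h0 h1
  rw [← mk_ord_toType (succ l)] at hP
  obtain ⟨e⟩ := (Cardinal.le_def _ _).1 hP
  have hF : ∀ q : P M β, ∃ F : K → Set (P M β), (∀ γ, #(F γ) ≤ ν γ) ∧
      ∀ s ∈ e ⁻¹' (Iic (e q)), ∃ γ ∈ D, s ∈ F γ := by
    intro q
    refine exists_filtration ?_ hD
    refine (mk_preimage_of_injective _ _ e.injective).trans ?_
    rw [← Iio_insert]
    refine mk_insert_le.trans (add_le_of_le hl ?_ (one_le_aleph0.trans hl))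
    exact lt_succ_iff.1 (mk_Iio_lt_self (e q))
  choose F hF using hF
  let F' : (K → K) → K → Set (K → K) := fun q γ =>
    if h : q ∈ P M β then Subtype.val '' F ⟨q, h⟩ γ else ∅
  have hF'card : ∀ q γ, #(F' q γ) ≤ ν γ := by
    intro q γ
    by_cases h : q ∈ P M β
    · simp only [F', dif_pos h]
      exact mk_image_le.trans ((hF _).1 γ)
    · simp [F', h]
  let G' : (K → K) → K → Set K := fun q a =>
    if a < a₀ then G a₀ (res a₀ q) a else
      ⋃ γ ∈ D, if a < γ then G γ (res γ q) a else (fun p => p a) '' F' q γ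
  have key : ∀ p (hp : p ∈ P M β) q (hq : q ∈ P M β), e ⟨p, hp⟩ ≤ e ⟨q, hq⟩ →
      (free G' β p q).Finite := by
    intro p hp q hq hle
    obtain ⟨γ, hγ, hpF⟩ := (hF ⟨q, hq⟩).2 ⟨p, hp⟩ hle
    have hγβ := hDβ γ hγ
    refine (((hG a₀ ha₀).2 _ (res_mem ha₀.le hp) _ (res_mem ha₀.le hq)).union
      ((hG γ hγβ).2 _ (res_mem hγβ.le hp) _ (res_mem hγβ.le hq))).subset ?_
    rintro a ⟨ha, h2, h3⟩
    by_cases haa : a < a₀
    · refine Or.inl ⟨haa, ?_, ?_⟩
      · simpa [G', haa, res_of_lt haa] using h2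
      · simpa [G', haa, res_of_lt haa] using h3
    · simp only [G', if_neg haa, mem_iUnion, not_exists] at h2 h3
      have h2 := h2 γ hγ
      have h3 := h3 γ hγ
      by_cases haγ : a < γ
      · refine Or.inr ⟨haγ, ?_, ?_⟩
        · simpa [haγ, res_of_lt haγ] using h2
        · simpa [haγ, res_of_lt haγ] using h3
      · exfalso
        rw [if_neg haγ] at h2
        refine h2 ⟨p, ?_, rfl⟩
        simp only [F', dif_pos hq]
        exact ⟨_, hpF, rfl⟩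
  refine ⟨G', fun f a ha => ?_, fun p hp q hq => ?_⟩
  · by_cases haa : a < a₀
    · simpa [G', haa] using (hG a₀ ha₀).1 _ a haa
    · simp only [G', if_neg haa]
      refine mk_biUnion_le_of_le (hinf a) (hDcard.trans (hmono (not_lt.1 haa))) fun γ hγ => ?_
      by_cases haγ : a < γ
      · rw [if_pos haγ]; exact (hG γ (hDβ γ hγ)).1 _ a haγ
      · rw [if_neg haγ]
        exact mk_image_le.trans ((hF'card f γ).trans (hmono (not_lt.1 haγ)))
  · rcases le_total (e ⟨p, hp⟩) (e ⟨q, hq⟩) with h | h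
    · exact key p hp q hq h
    · exact (key q hq p hp h).subset fun a ha => ⟨ha.1, ha.2.2, ha.2.1⟩

/-- the pairs (level below `α`, admissible value) -/
def W (M : K → Set K) (α : K) : Set (K × K) := {x | x.1 < α ∧ x.2 ∈ M x.1}

theorem mk_P_le (M : K → Set K) (β : K) : #(P M β) ≤ 2 ^ #(W M β) := by
  rw [← mk_set]
  refine mk_le_of_injective (f := fun f : P M β => {x : W M β | f.1 x.1.1 = x.1.2}) ?_
  intro f g h
  ext a
  by_cases ha : a < β
  · have : (⟨(a, f.1 a), ha, f.2.1 a ha⟩ : W M β) ∈ {x : W M β | g.1 x.1.1 = x.1.2} := by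
      have h' : {x : W M β | f.1 x.1.1 = x.1.2} = {x : W M β | g.1 x.1.1 = x.1.2} := h
      rw [← h']; rfl
    exact this.symm
  · rw [f.2.2 a ha, g.2.2 a ha]

/-- a family of sets of functions that behaves like the levels of a strong subtree -/
structure Rich (M : K → Set K) (A : Set K) (Q : K → Set (K → K)) : Prop where
  nonempty : ∀ δ, (Q δ).Nonempty
  mem : ∀ δ, ∀ g ∈ Q δ, ∀ i < δ, g i ∈ M i
  ext : ∀ α ∈ A, ∀ δ, α < δ → ∀ f ∈ Q α, ∀ y ∈ M α, ∃ g ∈ Q δ, (∀ i < α, g i = f i) ∧ g α = y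

theorem Rich.stabilize {M : K → Set K} {A : Set K} {Q : K → Set (K → K)} (hQ : Rich M A Q)
    {c : Cardinal.{u}} (hc : ℵ₀ ≤ c) {α δ : K} (hα : α ∈ A) (hαδ : α < δ)
    (hM : succ (succ c) ≤ #(M α)) (hW : 2 ^ #(W M α) ≤ c) (H : (K → K) → K → Set K) :
    ∃ H₁ : (K → K) → K → Set K, (∀ f i, ∃ g, H₁ f i ⊆ H g i) ∧
      ∀ f ∈ Q α, ∃ S : Set K, succ (succ c) ≤ #S ∧ ∀ y ∈ S, ∃ g ∈ Q δ,
        (∀ i < α, g i = f i) ∧ g α = y ∧ ∀ i < α, ∀ z ∈ M i, z ∈ H g i → z ∈ H₁ f i := by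
  classical
  have : ∀ f, ∃ h : K → Set K, (∀ i, ∃ g, h i ⊆ H g i) ∧
      (f ∈ Q α → ∃ S : Set K, succ (succ c) ≤ #S ∧ ∀ y ∈ S, ∃ g ∈ Q δ,
        (∀ i < α, g i = f i) ∧ g α = y ∧ ∀ i < α, ∀ z ∈ M i, z ∈ H g i → z ∈ h i) := by
    intro f
    by_cases hf : f ∈ Q α
    swap
    · exact ⟨fun _ => ∅, fun i => ⟨f, empty_subset _⟩, fun h => (hf h).elim⟩
    choose e he using hQ.ext α hα δ hαδ f hf
    let pat : M α → Set (W M α) := fun y => {x | x.1.2 ∈ H (e y.1 y.2) x.1.1}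
    have hreg : (succ (succ c)).IsRegular := isRegular_succ (hc.trans (le_succ c))
    obtain ⟨w, S, hSM, hS, hw⟩ := infinite_pigeonhole_set pat (succ (succ c)) hM hreg.aleph0_le
      (by
        rw [hreg.cof_ord, mk_set]
        exact hW.trans_lt ((lt_succ c).trans (lt_succ _)))
    have hSne : S.Nonempty := by
      rw [← Set.nonempty_coe_sort, ← Cardinal.mk_ne_zero_iff]
      exact (hreg.pos.trans_le hS).ne'
    obtain ⟨y₀, hy₀⟩ := hSne
    refine ⟨H (e y₀ (hSM hy₀)), fun i => ⟨_, subset_rfl⟩, fun _ => ⟨S, hS, fun y hy => ?_⟩⟩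
    refine ⟨e y (hSM hy), (he y _).1, (he y _).2.1, (he y _).2.2, fun i hi z hz h => ?_⟩
    have h1 : (⟨(i, z), hi, hz⟩ : W M α) ∈ pat ⟨y, hSM hy⟩ := h
    rw [hw hy, ← hw hy₀] at h1
    exact h1
  choose H₁ h using this
  exact ⟨H₁, fun f => (h f).1, fun f => (h f).2⟩

theorem exists_free_pair {M : K → Set K} {A : Set K} {Q Q' : K → Set (K → K)}
    (hQ : Rich M A Q) (hQ' : Rich M A Q') {ν : K → Cardinal.{u}} (hinf : ∀ a, ℵ₀ ≤ ν a)
    (hW : ∀ a, 2 ^ #(W M a) ≤ ν a) {a : ℕ → K} (hM : ∀ m, succ (succ (ν (a m))) ≤ #(M (a m)))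
    (ha : StrictMono a) (haA : ∀ m, a m ∈ A) (n : ℕ) :
    ∀ δ, (∀ m < n, a m < δ) → ∀ H H' : (K → K) → K → Set K,
      (∀ f, ∀ m < n, #(H f (a m)) ≤ ν (a m)) → (∀ f, ∀ m < n, #(H' f (a m)) ≤ ν (a m)) →
      ∃ p ∈ Q δ, ∃ q ∈ Q' δ, ∀ m < n, p (a m) ∉ H' q (a m) ∧ q (a m) ∉ H p (a m) := by
  induction n with
  | zero =>
    intro δ _ H H' _ _
    obtain ⟨p, hp⟩ := hQ.nonempty δ
    obtain ⟨q, hq⟩ := hQ'.nonempty δ
    exact ⟨p, hp, q, hq, by simp⟩
  | succ n ih =>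
    intro δ hδ H H' hH hH'
    have hαδ : a n < δ := hδ n (Nat.lt_succ_self n)
    obtain ⟨H₁, hH₁, h₁⟩ := hQ.stabilize (hinf _) (haA n) hαδ (hM _) (hW _) H
    obtain ⟨H₂, hH₂, h₂⟩ := hQ'.stabilize (hinf _) (haA n) hαδ (hM _) (hW _) H'
    obtain ⟨f, hf, f', hf', hfree⟩ := ih (a n) (fun m hm => ha hm) H₁ H₂
      (fun f m hm => by
        obtain ⟨g, hg⟩ := hH₁ f (a m)
        exact (mk_le_mk_of_subset hg).trans (hH g m (hm.trans (Nat.lt_succ_self n))))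
      (fun f m hm => by
        obtain ⟨g, hg⟩ := hH₂ f (a m)
        exact (mk_le_mk_of_subset hg).trans (hH' g m (hm.trans (Nat.lt_succ_self n))))
    obtain ⟨S, hS, hSe⟩ := h₁ f hf
    obtain ⟨S', hS', hSe'⟩ := h₂ f' hf'
    choose! e he using hSe
    choose! e' he' using hSe'
    obtain ⟨S₀, hS₀, hS₀c⟩ := le_mk_iff_exists_subset.1 ((le_succ _).trans hS)
    have hU : #(⋃ y ∈ S₀, H (e y) (a n)) ≤ succ (ν (a n)) :=
      mk_biUnion_le_of_le ((hinf _).trans (le_succ _)) hS₀c.le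
        fun y _ => (hH _ n (Nat.lt_succ_self n)).trans (le_succ _)
    obtain ⟨y', hy', hy'U⟩ : ∃ y' ∈ S', y' ∉ ⋃ y ∈ S₀, H (e y) (a n) := by
      by_contra! h
      exact (lt_succ _).not_ge (hS'.trans ((mk_le_mk_of_subset h).trans hU))
    obtain ⟨y, hy, hyU⟩ : ∃ y ∈ S₀, y ∉ H' (e' y') (a n) := by
      by_contra! h
      exact (lt_succ _).not_ge
        (hS₀c.ge.trans ((mk_le_mk_of_subset h).trans (hH' _ n (Nat.lt_succ_self n))))
    obtain ⟨hp, hp1, hp2, hp3⟩ := he y (hS₀ hy)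
    obtain ⟨hq, hq1, hq2, hq3⟩ := he' y' hy'
    refine ⟨e y, hp, e' y', hq, fun m hm => ?_⟩
    rcases (Nat.lt_succ_iff.1 hm).eq_or_lt with rfl | hm
    · rw [hp2, hq2]
      exact ⟨hyU, fun h => hy'U (mem_biUnion hy h)⟩
    · have hmn : a m < a n := ha hm
      rw [hp1 _ hmn, hq1 _ hmn]
      exact ⟨fun h => (hfree m hm).1 (hq3 _ hmn _ (hQ.mem _ f hf _ hmn) h),
        fun h => (hfree m hm).2 (hp3 _ hmn _ (hQ'.mem _ f' hf' _ hmn) h)⟩

end Pool.Agent.Work.MP_667be6_lc
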