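import Mathlib.SetTheory.Cardinal.Regular
import Mathlib.SetTheory.Cardinal.Cofinality.Club
import Mathlib.Order.Preorder.Chain

/-!
Definitions for the Halpern-Lauchli property at an uncountable cardinal.
-/

universe u

namespace Pool.Agent.Work.MP_667be6_lc

open Cardinal

/-! ### Trees inside the set of sequences of length below κ with values in κ -/

/-- A sequence of length below `κ` with values in `κ`. Ordinals below `κ` are the elements of the
well-order `κ.ord.ToType`, which has order type `κ`. -/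
structure Node (κ : Cardinal.{u}) : Type u where
  /-- the domain of the sequence, an ordinal below `κ` -/
  len : κ.ord.ToType
  /-- the values of the sequence -/
  val : Set.Iio len → κ.ord.ToType

/-- `s` is an initial segment of `t`. -/
def InitSeg {κ : Cardinal.{u}} (s t : Node κ) : Prop :=
  ∃ h : s.len ≤ t.len, ∀ i : Set.Iio s.len, s.val i = t.val ⟨i.1, lt_of_lt_of_le i.2 h⟩

/-- The level `T(α)`. -/
def level {κ : Cardinal.{u}} (T : Set (Node κ)) (α : κ.ord.ToType) : Set (Node κ) :=
  {t | t ∈ T ∧ t.len = α}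

/-- `s` extends `t` by exactly one more value. -/
def ImmSucc {κ : Cardinal.{u}} (t s : Node κ) : Prop :=
  InitSeg t s ∧ t.len ⋖ s.len

/-- Regular `κ`-trees. -/
structure IsRegularTree {κ : Cardinal.{u}} (T : Set (Node κ)) : Prop where
  /-- `T` is a tree: closed under initial segments -/
  closed : ∀ t ∈ T, ∀ s, InitSeg s t → s ∈ T
  /-- `T` has height `κ` -/
  height : ∀ α, (level T α).Nonempty
  /-- levels have size below `κ` -/
  small : ∀ α, #(level T α) < κ
  /-- every maximal branch has length `κ` -/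
  branch : ∀ B : Set (Node κ), Maximal (fun C => C ⊆ T ∧ IsChain InitSeg C) B →
    ∀ α, (level B α).Nonempty
  /-- every node has two incomparable extensions -/
  split : ∀ t ∈ T, ∃ s₁ ∈ T, ∃ s₂ ∈ T,
    InitSeg t s₁ ∧ InitSeg t s₂ ∧ ¬ InitSeg s₁ s₂ ∧ ¬ InitSeg s₂ s₁

/-- `T'` is a strong subtree of `T` witnessed by the set of levels `A`. -/
structure IsStrongSubtree {κ : Cardinal.{u}} (T : Set (Node κ)) (A : Set κ.ord.ToType)
    (T' : Set (Node κ)) : Prop where
  regular : IsRegularTree T'
  subset : T' ⊆ T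
  mem_case : ∀ t ∈ T', t.len ∈ A → ∀ s ∈ T, ImmSucc t s → s ∈ T'
  notMem_case : ∀ t ∈ T', t.len ∉ A → ∃! s, s ∈ T' ∧ ImmSucc t s

/-- The level product of `d` sets of nodes. -/
def levelProd {κ : Cardinal.{u}} {d : ℕ} (X : Fin d → Set (Node κ)) : Set (Fin d → Node κ) :=
  {x | ∃ α, ∀ i, x i ∈ level (X i) α}

/-- The statement `HL(d, σ, κ)`. Colours are the ordinals below `σ`. -/
def HL (d : ℕ) (σ κ : Cardinal.{u}) : Prop :=
  ∀ T : Fin d → Set (Node κ), (∀ i, IsRegularTree (T i)) →
    ∀ c : levelProd T → σ.ord.ToType,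
      ∃ A : Set κ.ord.ToType, IsCofinal A ∧
        ∃ T' : Fin d → Set (Node κ), (∀ i, IsStrongSubtree (T i) A (T' i)) ∧
          ∃ k, ∀ x : levelProd T, (∃ α ∈ A, ∀ i, x.1 i ∈ level (T' i) α) → c x = k

end Pool.Agent.Work.MP_667be6_lc
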