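import Mathlib.SetTheory.Ordinal.Arithmetic
import Mathlib.SetTheory.ZFC.Basic

/-!
The constructible hierarchy and the statement `V = L`.
-/

universe u

namespace Pool.Agent.Work.MP_667be6_lc

/-- First-order formulas of the language of set theory with free variables among `n` given ones
(de Bruijn indices: the quantifier binds variable `0`). -/
inductive Fml : ℕ → Type
  | mem {n : ℕ} (i j : Fin n) : Fml n
  | eq {n : ℕ} (i j : Fin n) : Fml n
  | neg {n : ℕ} (φ : Fml n) : Fml n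
  | and {n : ℕ} (φ ψ : Fml n) : Fml n
  | ex {n : ℕ} (φ : Fml (n + 1)) : Fml n

/-- Satisfaction in the structure `(M, ∈)`. -/
def Sat (M : ZFSet.{u}) {n : ℕ} (φ : Fml n) : (Fin n → ZFSet.{u}) → Prop :=
  Fml.rec (motive := fun n _ => (Fin n → ZFSet.{u}) → Prop)
    (fun i j v => v i ∈ v j)
    (fun i j v => v i = v j)
    (fun _ p v => ¬ p v)
    (fun _ _ p q v => p v ∧ q v)
    (fun _ p v => ∃ a ∈ M, p (Fin.cons a v)) φ

/-- `Def M`: the set of all subsets of `M` definable in `(M, ∈)` with parameters from `M`. -/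
noncomputable def Def (M : ZFSet.{u}) : ZFSet.{u} :=
  ZFSet.sep (fun X => ∃ (n : ℕ) (φ : Fml (n + 1)) (v : Fin n → ZFSet.{u}),
    (∀ i, v i ∈ M) ∧ ∀ a, a ∈ X ↔ a ∈ M ∧ Sat M φ (Fin.cons a v)) M.powerset

/-- The constructible hierarchy: `L 0 = ∅`, `L (α + 1) = Def (L α)`, unions at limits. -/
noncomputable def L (α : Ordinal.{u}) : ZFSet.{u} :=
  Ordinal.limitRecOn α ∅ (fun _ M => Def M)
    (fun γ _ f => ZFSet.iUnion fun β : Set.Iio γ => f β.1 β.2)

/-- The statement `V = L` for the universe `ZFSet.{u}` of sets. -/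
def VeqL : Prop :=
  ∀ x : ZFSet.{u}, ∃ α : Ordinal.{u}, x ∈ L α

end Pool.Agent.Work.MP_667be6_lc
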