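import Pool.Agent.Work.MP_667be6_lc.System

/-!
Failure of the Halpern-Lauchli property at every uncountable strong limit cardinal under `V = L`,
and the fact that regular trees at a regular uncountable cardinal need inaccessibility.
-/

universe u

namespace Pool.Agent.Work.MP_667be6_lc

open Cardinal Ordinal Order Set

variable {κ : Cardinal.{u}}

theorem not_HL_of_system (hκ : ℵ₀ ≤ κ) {E : Set κ.ord.ToType} (hE : IsCofinal E)
    {M : κ.ord.ToType → Set κ.ord.ToType}
    {ν : κ.ord.ToType → Cardinal.{u}} (hinf : ∀ a, ℵ₀ ≤ ν a) (hνκ : ∀ a, ν a < κ)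
    (hM : ∀ a ∈ E, succ (succ (ν a)) ≤ #(M a)) (hM' : ∀ a, a ∉ E → M a = {a})
    (hW : ∀ a, 2 ^ #(W M a) ≤ ν a)
    (hsys : ∀ β, ∃ G : (κ.ord.ToType → κ.ord.ToType) → κ.ord.ToType → Set κ.ord.ToType,
      (∀ f, ∀ a < β, #(G f a) ≤ ν a) ∧ ∀ p ∈ P M β, ∀ q ∈ P M β, (free G β p q ∩ E).Finite)
    {d : ℕ} (hd : 2 ≤ d) {σ : Cardinal.{u}} (hσ : ℵ₀ ≤ σ) : ¬ HL d σ κ := by
  classical
  have : NoMaxOrder κ.ord.ToType := Cardinal.noMaxOrder hκ
  choose G hG using hsys
  have hnt : ∀ a ∈ E, (M a).Nontrivial := fun a ha => by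
    rw [← Set.nontrivial_coe_sort, ← Cardinal.one_lt_iff_nontrivial]
    exact (one_lt_aleph0.trans_le ((hinf a).trans ((le_succ _).trans (le_succ _)))).trans_le
      (hM a ha)
  have hreg : IsRegularTree (full M) := by
    refine full_regular (fun a => ?_) (fun a => ?_)
      fun a => ((mk_P_le M a).trans (hW a)).trans_lt (hνκ a)
    · by_cases ha : a ∈ E
      · exact (hnt a ha).nonempty
      · rw [hM' a ha]; exact singleton_nonempty a
    · obtain ⟨b, hb, hab⟩ := hE a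
      exact ⟨b, hab, hnt b hb⟩
  have : Infinite σ.ord.ToType := by
    rw [Cardinal.infinite_iff, mk_ord_toType]; exact hσ
  let i₀ : Fin d := ⟨0, by omega⟩
  let i₁ : Fin d := ⟨1, by omega⟩
  let e : ℕ ↪ σ.ord.ToType := Infinite.natEmbedding _
  intro hHL
  obtain ⟨A, hA, T', hT', k, hk⟩ := hHL (fun _ => full M) (fun _ => hreg) fun x =>
    e (free (G (x.1 i₀).len) (x.1 i₀).len (x.1 i₀).tot (x.1 i₁).tot ∩ E).ncard
  have hne : Nonempty κ.ord.ToType := by
    rw [Ordinal.nonempty_toType_iff]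
    simpa using (aleph0_pos.trans_le hκ).ne'
  have hAE : IsCofinal (A ∩ E) := fun z => by
    obtain ⟨α, hα, hz, hn⟩ := (hT' i₀).exists_branching z
    refine ⟨α, ⟨hα, ?_⟩, hz⟩
    by_contra h
    rw [hM' α h] at hn
    exact Set.not_nontrivial_singleton hn
  have hA' : ∀ x : (A ∩ E : Set κ.ord.ToType), ∃ y : (A ∩ E : Set κ.ord.ToType), x < y := fun x => by
    obtain ⟨z, hz⟩ := exists_gt x.1
    obtain ⟨y, hy, hzy⟩ := hAE z
    exact ⟨⟨y, hy⟩, hz.trans_le hzy⟩
  have : NoMaxOrder (A ∩ E : Set κ.ord.ToType) := ⟨hA'⟩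
  have : Nonempty (A ∩ E : Set κ.ord.ToType) := hAE.nonempty.to_subtype
  obtain ⟨a, ha⟩ := Nat.exists_strictMono (A ∩ E : Set κ.ord.ToType)
  have ha' : StrictMono fun m => (a m).1 := fun m n h => ha h
  have main : ∀ n : ℕ, ∃ j, n ≤ j ∧ e j = k := by
    intro n
    obtain ⟨_, ⟨p, hp, rfl⟩, _, ⟨q, hq, rfl⟩, hfree⟩ :=
      exists_free_pair (rich_of_strong (hT' i₀)) (rich_of_strong (hT' i₁)) hinf hW
        (fun m => hM _ (a m).2.2) ha' (fun m => (a m).2.1) n (a n).1 (fun m hm => ha' hm) (G (a n).1) (G (a n).1)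
        (fun f m hm => (hG _).1 f _ (ha' hm)) (fun f m hm => (hG _).1 f _ (ha' hm))
    choose r hr using fun i => (hT' i).regular.height (a n).1
    let x : Fin d → Node κ := fun i => if i = i₀ then p else if i = i₁ then q else r i
    have h01 : i₁ ≠ i₀ := by simp [i₀, i₁]
    have hx0 : x i₀ = p := by simp [x]
    have hx1 : x i₁ = q := by simp [x, h01]
    have hx : ∀ i, x i ∈ level (T' i) (a n).1 := by
      intro i
      simp only [x]
      split_ifs with h1 h2
      · rw [h1]; exact hp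
      · rw [h2]; exact hq
      · exact hr i
    have hx' : x ∈ levelProd fun _ : Fin d => full M :=
      ⟨(a n).1, fun i => ⟨(hT' i).subset (hx i).1, (hx i).2⟩⟩
    refine ⟨_, ?_, hk ⟨x, hx'⟩ ⟨(a n).1, (a n).2.1, hx⟩⟩
    simp only [hx0, hx1, hp.2]
    have hfin : (free (G (a n).1) (a n).1 p.tot q.tot ∩ E).Finite :=
      (hG _).2 _ (hp.2 ▸ tot_mem_P ((hT' i₀).subset hp.1)) _
        (hq.2 ▸ tot_mem_P ((hT' i₁).subset hq.1))
    have hsub : (fun m => (a m).1) '' (Finset.range n : Set ℕ) ⊆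
        free (G (a n).1) (a n).1 p.tot q.tot ∩ E := by
      rintro _ ⟨m, hm, rfl⟩
      have hm : m < n := by simpa using hm
      exact ⟨⟨ha' hm, hfree m hm⟩, (a m).2.2⟩
    have := Set.ncard_le_ncard hsub hfin
    rwa [Set.ncard_image_of_injective _ ha'.injective, Set.ncard_coe_finset,
      Finset.card_range] at this
  obtain ⟨j, -, hj⟩ := main 0
  obtain ⟨j', hj', hj''⟩ := main (j + 1)
  have := e.injective (hj.trans hj''.symm)
  omega

theorem not_HL_of_VeqL (hV : VeqL.{u}) (hκ : κ.IsStrongLimit) (h0 : ℵ₀ < κ) {d : ℕ} (hd : 2 ≤ d)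
    {σ : Cardinal.{u}} (hσ : ℵ₀ ≤ σ) : ¬ HL d σ κ := by
  obtain ⟨E, M, ν, hE, hmono, hinf, hνκ, hM, hM', hW, hIio, hlow, hup⟩ := exists_params hκ h0
  exact not_HL_of_system h0.le hE hinf hνκ hM hM' hW
    (exists_system_L hV E M ν hmono hinf hIio hlow hup) hd hσ

theorem isStrongLimit_of_VeqL (hV : VeqL.{u}) (hκ : IsSuccLimit κ) (h0 : ℵ₀ < κ) :
    κ.IsStrongLimit := by
  refine ⟨(aleph0_pos.trans h0).ne', fun c hc => ?_⟩
  calc 2 ^ c ≤ 2 ^ max c ℵ₀ := power_le_power_left two_ne_zero (le_max_left _ _)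
    _ = succ (max c ℵ₀) := gch_of_VeqL hV (le_max_right _ _)
    _ < κ := hκ.succ_lt (max_lt hc h0)

theorem IsRegularTree.exists_upper {T : Set (Node κ)} (hT : IsRegularTree T) {C : Set (Node κ)}
    (hC : C ⊆ T) (hCc : IsChain InitSeg C) {δ : κ.ord.ToType} (hδ : ∀ t ∈ C, t.len ≤ δ) :
    ∃ s ∈ level T δ, ∀ t ∈ C, InitSeg t s := by
  obtain ⟨B, htB, hB⟩ := zorn_subset_nonempty {C : Set (Node κ) | C ⊆ T ∧ IsChain InitSeg C}
    (fun c hc hcc _ => ⟨⋃₀ c, ⟨sUnion_subset fun C hC => (hc hC).1, by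
      rintro x ⟨C, hC, hx⟩ y ⟨D, hD, hy⟩ hxy
      rcases hcc.total hC hD with h | h
      · exact (hc hD).2 (h hx) hy hxy
      · exact (hc hC).2 hx (h hy) hxy⟩, fun C hC => subset_sUnion_of_mem hC⟩)
    C ⟨hC, hCc⟩
  obtain ⟨s, hs, hlen⟩ := hT.branch B hB δ
  refine ⟨s, ⟨hB.1.1 hs, hlen⟩, fun t ht => ?_⟩
  exact initSeg_iff.2 ⟨hlen ▸ hδ t ht, fun i hi =>
    chain_tot_eq hB.1.2 (htB ht) hs hi (hlen ▸ hi.trans_le (hδ t ht))⟩

theorem InitSeg.total_of_le {r s t : Node κ} (h : InitSeg r t) (h' : InitSeg s t) :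
    InitSeg r s ∨ InitSeg s r := by
  rw [initSeg_iff] at h h'
  rcases le_total r.len s.len with hl | hl
  · exact Or.inl (initSeg_iff.2 ⟨hl, fun i hi => (h.2 i hi).trans (h'.2 i (hi.trans_le hl)).symm⟩)
  · exact Or.inr (initSeg_iff.2 ⟨hl, fun i hi => (h'.2 i hi).trans (h.2 i (hi.trans_le hl)).symm⟩)

/-- recursion along a well-order from the set of earlier values -/
noncomputable def recSet {o : Ordinal.{u}} {N : Type u}
    (F : o.ToType → Set N → N) (g : o.ToType → N → N) (a : o.ToType) : N :=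
  F a (range fun b : Iio a => g b.1 (recSet F g b.1))
termination_by a
decreasing_by exact b.2

theorem isInaccessible_of_tree (hκ : κ.IsRegular) (h0 : ℵ₀ < κ) {T : Set (Node κ)}
    (hT : IsRegularTree T) : κ.IsInaccessible := by
  classical
  have hne : Nonempty κ.ord.ToType := by
    rw [Ordinal.nonempty_toType_iff]
    simpa using hκ.pos.ne'
  have hub : ∀ S : Set κ.ord.ToType, ∃ b, #S < κ → ∀ x ∈ S, x ≤ b := by
    intro S
    by_cases hS : #S < κ
    · by_contra! h
      have : IsCofinal S := fun b => by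
        obtain ⟨-, x, hx, hb⟩ := h b
        exact ⟨x, hx, hb.le⟩
      have := Order.cof_le this
      rw [cof_toType, hκ.cof_ord] at this
      exact hS.not_ge this
    · exact ⟨hne.some, fun h => (hS h).elim⟩
  choose ub hub using hub
  choose! s₁ hs₁ s₂ hs₂ hsp using hT.split
  let ext : Bool → Node κ → Node κ := fun b t => if b then s₁ t else s₂ t
  have hext : ∀ b, ∀ t ∈ T, ext b t ∈ T ∧ InitSeg t (ext b t) := by
    intro b t ht
    cases b
    · exact ⟨hs₂ t ht, (hsp t ht).2.1⟩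
    · exact ⟨hs₁ t ht, (hsp t ht).1⟩
  let nxt : κ.ord.ToType → κ.ord.ToType := fun α =>
    max (ub ((fun t => (s₁ t).len) '' level T α)) (ub ((fun t => (s₂ t).len) '' level T α))
  have hnxt : ∀ α b, ∀ t ∈ level T α, (ext b t).len ≤ nxt α := by
    intro α b t ht
    cases b
    · exact le_max_of_le_right (hub _ (mk_image_le.trans_lt (hT.small α)) _ ⟨t, ht, rfl⟩)
    · exact le_max_of_le_left (hub _ (mk_image_le.trans_lt (hT.small α)) _ ⟨t, ht, rfl⟩)
  let γ : κ.ord.ToType → κ.ord.ToType := recSet (fun _ => ub) fun _ => nxt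
  have hγ : ∀ a b, b < a → nxt (γ b) ≤ γ a := by
    intro a b hb
    have : γ a = ub (range fun b : Iio a => nxt (γ b.1)) := by simp only [γ]; rw [recSet]
    rw [this]
    exact hub _ (mk_range_le.trans_lt (mk_Iio_lt_self a)) _ ⟨⟨b, hb⟩, rfl⟩
  have hup : ∀ (a : κ.ord.ToType) (C : Set (Node κ)), ∃ s : Node κ, C ⊆ T → IsChain InitSeg C →
      (∀ t ∈ C, t.len ≤ γ a) → s ∈ level T (γ a) ∧ ∀ t ∈ C, InitSeg t s := by
    intro a C
    by_cases h : C ⊆ T ∧ IsChain InitSeg C ∧ ∀ t ∈ C, t.len ≤ γ a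
    · obtain ⟨s, hs⟩ := hT.exists_upper h.1 h.2.1 h.2.2
      exact ⟨s, fun _ _ _ => hs⟩
    · exact ⟨(hT.height a).some, fun h1 h2 h3 => (h ⟨h1, h2, h3⟩).elim⟩
  choose up hup using hup
  let node : (κ.ord.ToType → Bool) → κ.ord.ToType → Node κ := fun s =>
    recSet up fun b => ext (s b)
  have hnode : ∀ s a, node s a = up a (range fun b : Iio a => ext (s b.1) (node s b.1)) := by
    intro s a; simp only [node]; rw [recSet]
  have hinv : ∀ s a, node s a ∈ level T (γ a) ∧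
      ∀ b < a, InitSeg (ext (s b) (node s b)) (node s a) := by
    intro s a
    induction a using WellFoundedLT.induction with
    | ind a ih =>
      have := hup a (range fun b : Iio a => ext (s b.1) (node s b.1)) ?_ ?_ ?_
      · rw [← hnode] at this
        exact ⟨this.1, fun b hb => this.2 _ ⟨⟨b, hb⟩, rfl⟩⟩
      · rintro _ ⟨b, rfl⟩
        exact (hext _ _ (ih b.1 b.2).1.1).1
      · rintro _ ⟨b, rfl⟩ _ ⟨c, rfl⟩ hbc
        rcases lt_trichotomy b.1 c.1 with h | h | h
        · exact Or.inl (((ih c.1 c.2).2 _ h).trans (hext _ _ (ih c.1 c.2).1.1).2)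
        · exact (hbc (by simp only [h])).elim
        · exact Or.inr (((ih b.1 b.2).2 _ h).trans (hext _ _ (ih b.1 b.2).1.1).2)
      · rintro _ ⟨b, rfl⟩
        exact (hnxt _ _ _ (ih b.1 b.2).1).trans (hγ a b.1 b.2)
  have hdep : ∀ s s' a, (∀ b < a, s b = s' b) → node s a = node s' a := by
    intro s s' a
    induction a using WellFoundedLT.induction with
    | ind a ih =>
      intro h
      rw [hnode, hnode]
      congr 2
      funext b
      rw [h b.1 b.2, ih b.1 b.2 fun c hc => h c (lt_trans hc b.2)]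
  have hinj : ∀ s s' a, node s a = node s' a → ∀ b < a, s b = s' b := by
    intro s s' a h b
    induction b using WellFoundedLT.induction with
    | ind b ih =>
      intro hb
      have h1 := hdep s s' b fun c hc => ih c hc (hc.trans hb)
      have h2 := (hinv s a).2 b hb
      have h3 := (hinv s' a).2 b hb
      rw [← h, ← h1] at h3
      have h4 := hsp _ (hinv s b).1.1
      have h5 := h2.total_of_le h3
      by_contra hne
      cases hs : s b <;> cases hs' : s' b <;> rw [hs, hs'] at h5 hne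
      · exact hne rfl
      · exact h5.elim h4.2.2.2 h4.2.2.1
      · exact h5.elim h4.2.2.1 h4.2.2.2
      · exact hne rfl
  refine isInaccessible_def.2 ⟨h0, hκ, hκ.pos.ne', fun c hc => ?_⟩
  let a : κ.ord.ToType := ToType.mk ⟨c.ord, Cardinal.ord_lt_ord.2 hc⟩
  have ha : #(Iio a) = c := by rw [mk_Iio_eq_card, coe_mk, card_ord]
  refine lt_of_le_of_lt ?_ (hT.small (γ a))
  have h2 : 2 ^ c = #(Iio a → Bool) := by simp [ha]
  rw [h2]
  refine mk_le_of_injective (f := fun s : Iio a → Bool =>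
    (⟨node (fun b => if h : b < a then s ⟨b, h⟩ else true) a, (hinv _ a).1⟩ : level T (γ a))) ?_
  intro s s' h
  funext b
  have := hinj _ _ a (congrArg Subtype.val h) b.1 b.2
  simpa [show b.1 < a from b.2] using this

end Pool.Agent.Work.MP_667be6_lc
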