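import Pool.Agent.Work.MP_667be6_lc.Basic

/-!
`V = L` implies the generalized continuum hypothesis (Goedel), by a condensation argument.
-/

universe u

namespace Pool.Agent.Work.MP_667be6_lc

open Cardinal Ordinal Order

/-- the collapse of a set of ordinals -/
noncomputable def col (X : Set Ordinal.{u}) (β : Ordinal.{u}) : Ordinal.{u} :=
  ⨆ a : {a : Set.Iio β // a.1 ∈ X}, col X a.1.1 + 1
termination_by β
decreasing_by exact a.1.2

theorem lt_col_iff {X : Set Ordinal.{u}} {β γ : Ordinal.{u}} :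
    γ < col X β ↔ ∃ α ∈ X, α < β ∧ γ ≤ col X α := by
  rw [col, Ordinal.lt_iSup_iff]
  constructor
  · rintro ⟨a, ha⟩
    exact ⟨a.1.1, a.2, a.1.2, lt_add_one_iff.1 ha⟩
  · rintro ⟨α, hα, hαβ, h⟩
    exact ⟨⟨⟨α, hαβ⟩, hα⟩, lt_add_one_iff.2 h⟩

theorem col_lt_col {X : Set Ordinal.{u}} {α β : Ordinal.{u}} (hα : α ∈ X) (h : α < β) :
    col X α < col X β := lt_col_iff.2 ⟨α, hα, h, le_rfl⟩

theorem exists_col_eq {X : Set Ordinal.{u}} {β γ : Ordinal.{u}} (h : γ < col X β) :
    ∃ α ∈ X, α < β ∧ col X α = γ := by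
  induction β using WellFoundedLT.induction with
  | ind β ih =>
    obtain ⟨α, hα, hαβ, h'⟩ := lt_col_iff.1 h
    rcases h'.eq_or_lt with rfl | h'
    · exact ⟨α, hα, hαβ, rfl⟩
    · obtain ⟨α', hα', h1, h2⟩ := ih α hαβ h'
      exact ⟨α', hα', h1.trans hαβ, h2⟩

theorem col_eq_self {X : Set Ordinal.{u}} {β : Ordinal.{u}} (h : Set.Iio β ⊆ X) :
    col X β = β := by
  induction β using WellFoundedLT.induction with
  | ind β ih =>
    have h' : ∀ α < β, col X α = α := fun α hα => ih α hα fun γ hγ => h (lt_trans hγ hα)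
    apply le_antisymm
    · refine le_of_forall_lt fun γ hγ => ?_
      obtain ⟨α, -, hαβ, h2⟩ := lt_col_iff.1 hγ
      rw [h' α hαβ] at h2
      exact h2.trans_lt hαβ
    · refine le_of_forall_lt fun γ hγ => ?_
      exact lt_col_iff.2 ⟨γ, h hγ, hγ, (h' γ hγ).ge⟩

theorem card_col_le (X : Set Ordinal.{u}) (β : Ordinal.{u}) :
    Cardinal.lift.{u + 1} (col X β).card ≤ #X := by
  rw [← Cardinal.mk_Iio_ordinal]
  have : Set.Iio (col X β) ⊆ col X '' X := fun γ hγ => by
    obtain ⟨α, hα, -, h⟩ := exists_col_eq hγ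
    exact ⟨α, hα, h⟩
  exact (Cardinal.mk_le_mk_of_subset this).trans Cardinal.mk_image_le

/-- the collapsing relation -/
inductive Rel (X : Set Ordinal.{u}) : Ordinal.{u} → ZFSet.{u} → ZFSet.{u} → Prop
  | mk {α β : Ordinal.{u}} {n : ℕ} (φ : Fml (n + 1)) (v w : Fin n → ZFSet.{u}) (hα : α ∈ X)
      (hαβ : α < β) (h : ∀ i, Rel X α (v i) (w i)) :
      Rel X β (dset α φ v) (dset (col X α) φ w)

variable {X : Set Ordinal.{u}}

theorem Rel.hull {β : Ordinal.{u}} {x y : ZFSet.{u}} (h : Rel X β x y) : Hull X β x := by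
  induction h with
  | mk φ v w hα hαβ h ih => exact Hull.mk φ v hα hαβ ih

theorem Rel.mem_right {β : Ordinal.{u}} {x y : ZFSet.{u}} (h : Rel X β x y) :
    y ∈ L (col X β) := by
  induction h with
  | mk φ v w hα hαβ h ih => exact dset_mem_L (col_lt_col hα hαβ) φ ih

theorem Hull.exists_rel {β : Ordinal.{u}} {x : ZFSet.{u}} (h : Hull X β x) :
    ∃ y, Rel X β x y := by
  induction h with
  | mk φ v hα hαβ h ih =>
    choose w hw using ih
    exact ⟨_, Rel.mk φ v w hα hαβ hw⟩

theorem Rel.mono {β γ : Ordinal.{u}} (hβγ : β ≤ γ) {x y : ZFSet.{u}} (h : Rel X β x y) :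
    Rel X γ x y := by
  cases h with
  | mk φ v w hα hαβ h => exact Rel.mk φ v w hα (hαβ.trans_le hβγ) h

theorem rel_surj {β : Ordinal.{u}} {y : ZFSet.{u}} (hy : y ∈ L (col X β)) :
    ∃ x, Rel X β x y := by
  induction β using WellFoundedLT.induction generalizing y with
  | ind β ih =>
    obtain ⟨γ, hγ, hy⟩ := mem_L_iff.1 hy
    obtain ⟨n, φ, w, hw, rfl⟩ := mem_Def_L.1 hy
    obtain ⟨α, hα, hαβ, rfl⟩ := exists_col_eq hγ
    choose v hv using fun i => ih α hαβ (hw i)
    exact ⟨_, Rel.mk φ v w hα hαβ hv⟩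

theorem rel_self {β : Ordinal.{u}} (hX : Set.Iio β ⊆ X) {x : ZFSet.{u}} (hx : x ∈ L β) :
    Rel X β x x := by
  induction β using WellFoundedLT.induction generalizing x with
  | ind β ih =>
    obtain ⟨α, hα, hx⟩ := mem_L_iff.1 hx
    obtain ⟨n, φ, v, hv, rfl⟩ := mem_Def_L.1 hx
    have hX' : Set.Iio α ⊆ X := fun γ hγ => hX (lt_trans hγ hα)
    have := Rel.mk φ v v (hX hα) hα fun i => ih α hα hX' (hv i)
    rwa [col_eq_self hX'] at this

/-- a related pair can be presented at any stage of `X` that is large enough -/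
theorem Rel.present {α : Ordinal.{u}} {x y : ZFSet.{u}} (h : Rel X (α + 1) x y) :
    ∃ (n : ℕ) (φ : Fml (n + 1)) (v w : Fin n → ZFSet.{u}), (∀ i, Rel X α (v i) (w i)) ∧
      x = dset α φ v ∧ y = dset (col X α) φ w := by
  generalize hβ : α + 1 = β at h
  cases h with
  | @mk γ β n φ v w hγ hγβ h =>
    subst hβ
    rcases (lt_add_one_iff.1 hγβ).eq_or_lt with rfl | hγα
    · exact ⟨n, φ, v, w, h, rfl, rfl⟩
    · have hr : Rel X α (dset γ φ v) (dset (col X γ) φ w) := Rel.mk φ v w hγ hγα h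
      refine ⟨1, fmem, ![dset γ φ v], ![dset (col X γ) φ w], by simpa using hr, ?_, ?_⟩
      · exact (dset_fmem (L_trans hr.hull.mem_L)).symm
      · exact (dset_fmem (L_trans hr.mem_right)).symm

/-- closure properties of a set of stages -/
structure Closed (X : Set Ordinal.{u}) : Prop where
  wit : ∀ α ∈ X, ∀ x x', Hull X (α + 1) x → Hull X (α + 1) x' → ¬ x ⊆ x' →
    ∃ a, Hull X α a ∧ a ∈ x ∧ a ∉ x'
  down : ∀ α ∈ X, ∀ x, Hull X (α + 1) x → x ∈ L α → Hull X α x

/-- the collapsing relation is an isomorphism at stage `β` -/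
def Iso (X : Set Ordinal.{u}) (β : Ordinal.{u}) : Prop :=
  ∀ x y x' y', Rel X β x y → Rel X β x' y' → (x ∈ x' ↔ y ∈ y') ∧ (x = x' ↔ y = y')

theorem sat_iff (hX : Closed X) {α : Ordinal.{u}} (hα : α ∈ X) (hI : Iso X α) {n : ℕ}
    (φ : Fml n) (v w : Fin n → ZFSet.{u}) (h : ∀ i, Rel X α (v i) (w i)) :
    Sat (L α) φ v ↔ Sat (L (col X α)) φ w := by
  induction φ with
  | mem i j => exact (hI _ _ _ _ (h i) (h j)).1
  | eq i j => exact (hI _ _ _ _ (h i) (h j)).2
  | neg φ ih => exact not_congr (ih v w h)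
  | and φ ψ ih ih' => exact and_congr (ih v w h) (ih' v w h)
  | @ex n φ ih =>
    have hcons : ∀ a b, Rel X α a b → ∀ i : Fin (n + 1),
        Rel X α ((Fin.cons a v : Fin (n + 1) → ZFSet.{u}) i)
          ((Fin.cons b w : Fin (n + 1) → ZFSet.{u}) i) := by
      intro a b hab i
      refine Fin.cases ?_ (fun i => ?_) i
      · simpa using hab
      · simpa using h i
    simp only [sat_ex]
    constructor
    · rintro ⟨a, ha, hs⟩
      have h1 : Hull X (α + 1) (dset α φ v) :=
        Hull.mk φ v hα (lt_add_one α) fun i => (h i).hull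
      have h2 : Hull X (α + 1) (dset α (Fml.neg (Fml.eq 0 0) : Fml (0 + 1)) ![]) :=
        Hull.mk _ _ hα (lt_add_one α) (by simp)
      obtain ⟨a', ha', ha'', -⟩ := hX.wit α hα _ _ h1 h2 (by
        intro hsub
        have := hsub (mem_dset.2 ⟨ha, hs⟩)
        simp [mem_dset] at this)
      obtain ⟨b, hb⟩ := ha'.exists_rel
      exact ⟨b, hb.mem_right, (ih _ _ (hcons _ _ hb)).1 (mem_dset.1 ha'').2⟩
    · rintro ⟨b, hb, hs⟩
      obtain ⟨a, ha⟩ := rel_surj hb
      exact ⟨a, ha.hull.mem_L, (ih _ _ (hcons _ _ ha)).2 hs⟩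

theorem mem_iff_of_rel (hX : Closed X) {α : Ordinal.{u}} (hα : α ∈ X) (hI : Iso X α)
    {a b x y : ZFSet.{u}} (hab : Rel X α a b) (hxy : Rel X (α + 1) x y) : a ∈ x ↔ b ∈ y := by
  obtain ⟨n, φ, v, w, h, rfl, rfl⟩ := hxy.present
  rw [mem_dset, mem_dset]
  refine and_congr (iff_of_true hab.hull.mem_L hab.mem_right) (sat_iff hX hα hI φ _ _ fun i => ?_)
  refine Fin.cases ?_ (fun i => ?_) i
  · simpa using hab
  · simpa using h i

theorem subset_iff_of_rel (hX : Closed X) {α : Ordinal.{u}} (hα : α ∈ X) (hI : Iso X α)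
    {x y x' y' : ZFSet.{u}} (h : Rel X (α + 1) x y) (h' : Rel X (α + 1) x' y') :
    x ⊆ x' ↔ y ⊆ y' := by
  constructor
  · intro hsub b hb
    have hbL : b ∈ L (col X α) := by
      obtain ⟨n, φ, v, w, -, -, rfl⟩ := h.present
      exact dset_subset _ _ hb
    obtain ⟨a, ha⟩ := rel_surj hbL
    exact (mem_iff_of_rel hX hα hI ha h').1 (hsub ((mem_iff_of_rel hX hα hI ha h).2 hb))
  · intro hsub
    by_contra hn
    obtain ⟨a, ha, h1, h2⟩ := hX.wit α hα _ _ h.hull h'.hull hn
    obtain ⟨b, hb⟩ := ha.exists_rel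
    exact h2 ((mem_iff_of_rel hX hα hI hb h').2 (hsub ((mem_iff_of_rel hX hα hI hb h).1 h1)))

theorem iso_add_one (hX : Closed X) {α : Ordinal.{u}} (hα : α ∈ X) (hI : Iso X α) :
    Iso X (α + 1) := by
  have heq : ∀ x y x' y', Rel X (α + 1) x y → Rel X (α + 1) x' y' → (x = x' ↔ y = y') := by
    intro x y x' y' h h'
    rw [le_antisymm_iff, le_antisymm_iff]
    exact and_congr (subset_iff_of_rel hX hα hI h h') (subset_iff_of_rel hX hα hI h' h)
  intro x y x' y' h h'
  refine ⟨?_, heq _ _ _ _ h h'⟩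
  have hle : α ≤ α + 1 := (lt_add_one α).le
  constructor
  · intro hx
    have hxL : x ∈ L α := by
      obtain ⟨n, φ, v, w, -, rfl, -⟩ := h'.present
      exact dset_subset _ _ hx
    obtain ⟨b, hb⟩ := (hX.down α hα x h.hull hxL).exists_rel
    have : b = y := (heq _ _ _ _ (hb.mono hle) h).1 rfl
    subst this
    exact (mem_iff_of_rel hX hα hI hb h').1 hx
  · intro hy
    have hyL : y ∈ L (col X α) := by
      obtain ⟨n, φ, v, w, -, -, rfl⟩ := h'.present
      exact dset_subset _ _ hy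
    obtain ⟨a, ha⟩ := rel_surj hyL
    have : a = x := (heq _ _ _ _ (ha.mono hle) h).2 rfl
    subst this
    exact (mem_iff_of_rel hX hα hI ha h').2 hy

theorem Rel.exists_stage {β : Ordinal.{u}} {x y : ZFSet.{u}} (h : Rel X β x y) :
    ∃ α ∈ X, α < β ∧ Rel X (α + 1) x y := by
  cases h with
  | @mk α β n φ v w hα hαβ h => exact ⟨α, hα, hαβ, Rel.mk φ v w hα (lt_add_one α) h⟩

theorem iso_all (hX : Closed X) (β : Ordinal.{u}) : Iso X β := by
  induction β using WellFoundedLT.induction with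
  | ind β ih =>
    intro x y x' y' h h'
    obtain ⟨α, hα, hαβ, h⟩ := h.exists_stage
    obtain ⟨α', hα', hαβ', h'⟩ := h'.exists_stage
    rcases le_total α α' with hle | hle
    · exact iso_add_one hX hα' (ih α' hαβ') _ _ _ _ (h.mono (by gcongr)) h'
    · exact iso_add_one hX hα (ih α hαβ) _ _ _ _ h (h'.mono (by gcongr))

/-- closing a set under a countably-valued operation on finite subsets -/
theorem exists_closure {O : Type*} (F : Finset O → Set O) (hF : ∀ s, (F s).Countable)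
    (X₀ : Set O) :
    ∃ X : Set O, X₀ ⊆ X ∧ #X ≤ max #X₀ ℵ₀ ∧ ∀ s : Finset O, (s : Set O) ⊆ X → F s ⊆ X := by
  classical
  let step : Set O → Set O := fun Y => Y ∪ ⋃ s : Finset Y, F (s.image Subtype.val)
  let Y : ℕ → Set O := fun n => step^[n] X₀
  have hY : ∀ n, Y (n + 1) = step (Y n) := fun n => Function.iterate_succ_apply' _ _ _
  have hmono : Monotone Y := monotone_nat_of_le_succ fun n => by
    rw [hY]; exact Set.subset_union_left
  have hinf : ℵ₀ ≤ max #X₀ ℵ₀ := le_max_right _ _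
  have hcard : ∀ n, #(Y n) ≤ max #X₀ ℵ₀ := by
    intro n
    induction n with
    | zero => exact le_max_left _ _
    | succ n ih =>
      rw [hY]
      refine (Cardinal.mk_union_le _ _).trans (Cardinal.add_le_of_le hinf ih ?_)
      refine (Cardinal.mk_iUnion_le _).trans (Cardinal.mul_le_of_le hinf ?_ ?_)
      · rcases finite_or_infinite (Y n) with hfin | hinf'
        · exact Cardinal.mk_le_aleph0.trans hinf
        · rw [Cardinal.mk_finset_of_infinite]; exact ih
      · refine ciSup_le' fun s => le_trans ?_ hinf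
        exact Cardinal.le_aleph0_iff_set_countable.2 (hF _)
  refine ⟨⋃ n, Y n, Set.subset_iUnion Y 0, ?_, fun s hs => ?_⟩
  · have := Cardinal.mk_iUnion_le_lift Y
    simp only [Cardinal.lift_uzero, Cardinal.mk_nat, Cardinal.lift_aleph0] at this
    exact this.trans (Cardinal.mul_le_of_le hinf hinf (ciSup_le' hcard))
  · obtain ⟨n, hn⟩ : ∃ n, (s : Set O) ⊆ Y n := by
      choose! g hg using fun x (hx : x ∈ s) => Set.mem_iUnion.1 (hs hx)
      exact ⟨s.sup g, fun x hx => hmono (Finset.le_sup (f := g) hx) (hg x hx)⟩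
    refine fun a ha => Set.mem_iUnion.2 ⟨n + 1, ?_⟩
    rw [hY]
    refine Or.inr (Set.mem_iUnion.2 ⟨s.subtype (· ∈ Y n), ?_⟩)
    have : (s.subtype (· ∈ Y n)).image Subtype.val = s := by
      ext x
      simp only [Finset.mem_image, Finset.mem_subtype, Subtype.exists, exists_and_right,
        exists_eq_right]
      exact ⟨fun ⟨_, h⟩ => h, fun h => ⟨hn h, h⟩⟩
    rwa [this]

theorem exists_closed (X₀ : Set Ordinal.{u}) :
    ∃ X : Set Ordinal.{u}, X₀ ⊆ X ∧ #X ≤ max #X₀ ℵ₀ ∧ Closed X := by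
  classical
  have hsupp : ∀ (α : Ordinal.{u}) (x : ZFSet.{u}), ∃ s : Finset Ordinal.{u},
      x ∈ L α → Hull s α x := by
    intro α x
    by_cases hx : x ∈ L α
    · obtain ⟨s, hs⟩ := exists_finite_hull hx
      exact ⟨s, fun _ => hs⟩
    · exact ⟨∅, fun h => (hx h).elim⟩
  choose supp hsupp using hsupp
  have hwit : ∀ x x' : ZFSet.{u}, ∃ a, ¬ x ⊆ x' → a ∈ x ∧ a ∉ x' := by
    intro x x'
    by_cases h : x ⊆ x'
    · exact ⟨∅, fun h' => (h' h).elim⟩
    · rw [ZFSet.subset_def] at h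
      push Not at h
      obtain ⟨a, ha⟩ := h
      exact ⟨a, fun _ => ha⟩
  choose wit hwit using hwit
  let H : Finset Ordinal.{u} → Set ZFSet.{u} := fun s => {x | ∃ β, Hull s β x}
  have hH : ∀ s, (H s).Countable := fun s => by
    rw [← Cardinal.le_aleph0_iff_set_countable]
    refine (card_hull_le _).trans (max_le ?_ le_rfl)
    exact Cardinal.mk_le_aleph0
  let F : Finset Ordinal.{u} → Set Ordinal.{u} := fun s =>
    ⋃ α ∈ s, ⋃ x ∈ H s, ⋃ x' ∈ H s, ((supp α (wit x x') : Set Ordinal.{u}) ∪ supp α x)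
  have hF : ∀ s, (F s).Countable := fun s =>
    s.countable_toSet.biUnion fun α _ => (hH s).biUnion fun x _ => (hH s).biUnion fun x' _ =>
      (Finset.countable_toSet _).union (Finset.countable_toSet _)
  obtain ⟨X, hX₀, hcard, hcl⟩ := exists_closure F hF X₀
  have key : ∀ α ∈ X, ∀ x x', Hull X (α + 1) x → Hull X (α + 1) x' →
      (supp α (wit x x') : Set Ordinal.{u}) ∪ supp α x ⊆ X := by
    intro α hα x x' hx hx'
    obtain ⟨s, hs, hx⟩ := hx.finite
    obtain ⟨s', hs', hx'⟩ := hx'.finite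
    have hsub : ((insert α (s ∪ s') : Finset Ordinal.{u}) : Set Ordinal.{u}) ⊆ X := by
      intro a ha
      simp only [Finset.coe_insert, Finset.coe_union, Set.mem_insert_iff, Set.mem_union] at ha
      rcases ha with rfl | ha | ha
      exacts [hα, hs ha, hs' ha]
    refine subset_trans ?_ (hcl _ hsub)
    intro a ha
    simp only [F, Set.mem_iUnion]
    refine ⟨α, by simp, x, ⟨α + 1, hx.mono ?_⟩, x', ⟨α + 1, hx'.mono ?_⟩, ha⟩
    · intro b hb; simp [show b ∈ s from hb]
    · intro b hb; simp [show b ∈ s' from hb]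
  refine ⟨X, hX₀, hcard, fun α hα x x' hx hx' hn => ?_, fun α hα x hx hxL => ?_⟩
  · have hxL : x ⊆ L α := by
      have := hx.mem_L
      rw [L_add_one] at this
      exact subset_of_mem_Def this
    refine ⟨wit x x', (hsupp α _ (hxL (hwit x x' hn).1)).mono ?_, hwit x x' hn⟩
    exact subset_trans Set.subset_union_left (key α hα x x' hx hx')
  · exact (hsupp α x hxL).mono (subset_trans Set.subset_union_right (key α hα x x hx hx))

theorem mem_L_succ_of_subset {c : Cardinal.{u}} (hc : ℵ₀ ≤ c) {A : ZFSet.{u}}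
    {β : Ordinal.{u}} (hA : A ∈ L β) (hsub : A ⊆ L c.ord) : A ∈ L (succ c).ord := by
  obtain ⟨s, hs⟩ := exists_finite_hull hA
  obtain ⟨X, hX₀, hcard, hX⟩ := exists_closed (Set.Iio c.ord ∪ s)
  have hIio : Set.Iio c.ord ⊆ X := subset_trans Set.subset_union_left hX₀
  obtain ⟨y, hy⟩ := (hs.mono (subset_trans Set.subset_union_right hX₀)).exists_rel
  have hI := iso_all hX (max β c.ord)
  have hy' := hy.mono (le_max_left β c.ord)
  have hAy : A = y := by
    ext b
    constructor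
    · intro hb
      have := (rel_self hIio (hsub hb)).mono (le_max_right β c.ord)
      exact (hI _ _ _ _ this hy').1.1 hb
    · intro hb
      obtain ⟨a, ha⟩ := rel_surj (L_trans hy'.mem_right hb)
      have haA : a ∈ A := (hI _ _ _ _ ha hy').1.2 hb
      have := (rel_self hIio (hsub haA)).mono (le_max_right β c.ord)
      rwa [← (hI _ _ _ _ this ha).2.1 rfl]
  have hlt : col X β < (succ c).ord := by
    rw [Cardinal.lt_ord, lt_succ_iff, ← Cardinal.lift_le.{u + 1}]
    refine (card_col_le X β).trans (hcard.trans (max_le ?_ (by simpa using hc)))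
    refine (Cardinal.mk_union_le _ _).trans (Cardinal.add_le_of_le (by simpa using hc) ?_ ?_)
    · rw [Cardinal.mk_Iio_ordinal, Cardinal.card_ord]
    · exact Cardinal.mk_le_aleph0.trans (by simpa using hc)
  rw [hAy]
  exact L_mono hlt.le hy.mem_right

/-- Goedel: `V = L` implies GCH. -/
theorem gch_of_VeqL (h : VeqL.{u}) {c : Cardinal.{u}} (hc : ℵ₀ ≤ c) : 2 ^ c = succ c := by
  refine le_antisymm ?_ (succ_le_of_lt (Cardinal.cantor c))
  have hsub : (L c.ord).powerset ⊆ L (succ c).ord := by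
    intro A hA
    obtain ⟨β, hβ⟩ := h A
    exact mem_L_succ_of_subset hc hβ (ZFSet.mem_powerset.1 hA)
  calc 2 ^ c ≤ 2 ^ ZFSet.card (L c.ord) :=
        Cardinal.power_le_power_left two_ne_zero (by simpa using card_le_card_L c.ord)
    _ = ZFSet.card (L c.ord).powerset := (ZFSet.card_powerset _).symm
    _ ≤ ZFSet.card (L (succ c).ord) := ZFSet.card_mono hsub
    _ ≤ succ c := (card_L_le _).trans (by
        rw [Cardinal.card_ord]; exact max_le le_rfl (hc.trans (le_succ c)))

end Pool.Agent.Work.MP_667be6_lc
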