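import Pool.Agent.Work.MP_667be6_lc.Everywhere

universe u

open Cardinal Pool.Agent.Work.MP_667be6_lc

/-- Assume `V = L`. At every uncountable cardinal `κ` that is a limit cardinal (so at every
strongly inaccessible cardinal, weakly compact ones included) or carries a regular `κ`-tree,
`HL(d, σ, κ)` fails for all `d ≥ 2` and all infinite `σ < κ`. -/
theorem Pool.Agent.Work.MP_667be6_lc.old_everywhere (hV : VeqL.{u})
    (κ : Cardinal.{u}) (hκ : ℵ₀ < κ)
    (hT : Order.IsSuccLimit κ ∨ ∃ T : Set (Node κ), IsRegularTree T)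
    (d : ℕ) (σ : Cardinal.{u}) (hd : 2 ≤ d) (hσ : ℵ₀ ≤ σ) (_hσκ : σ < κ) : ¬ HL d σ κ := by
  refine not_HL_of_VeqL hV (isStrongLimit_of_VeqL hV ?_ hκ) hκ hd hσ
  rcases hT with hT | ⟨T, hT⟩
  · exact hT
  rcases isRegular_or_isSingular hκ.le with hr | hs
  · exact (isInaccessible_of_tree hr hκ hT).isSuccLimit
  · exact hs.isSuccLimit
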