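import Pool.Agent.Work.MP_667be6_lc.Defs
import Pool.Agent.Work.MP_667be6_lc.Params
import Mathlib.Order.Zorn
import Mathlib.Data.Set.Card

/-!
The tree and the colouring.
-/

universe u

namespace Pool.Agent.Work.MP_667be6_lc

open Cardinal Ordinal Order Set

variable {κ : Cardinal.{u}}

open Classical in
/-- a node as a total function -/
noncomputable def Node.tot (t : Node κ) : κ.ord.ToType → κ.ord.ToType :=
  fun a => if h : a < t.len then t.val ⟨a, h⟩ else a

/-- the node of length `α` given by a total function -/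
def mkNode (α : κ.ord.ToType) (f : κ.ord.ToType → κ.ord.ToType) : Node κ := ⟨α, fun i => f i.1⟩

theorem Node.tot_of_lt {t : Node κ} {a : κ.ord.ToType} (h : a < t.len) :
    t.tot a = t.val ⟨a, h⟩ := dif_pos h

theorem tot_mkNode {α a : κ.ord.ToType} (h : a < α) (f : κ.ord.ToType → κ.ord.ToType) :
    (mkNode α f).tot a = f a := Node.tot_of_lt (t := mkNode α f) h

theorem initSeg_iff {s t : Node κ} :
    InitSeg s t ↔ s.len ≤ t.len ∧ ∀ i < s.len, s.tot i = t.tot i := by
  constructor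
  · rintro ⟨h, h'⟩
    refine ⟨h, fun i hi => ?_⟩
    rw [Node.tot_of_lt hi, Node.tot_of_lt (hi.trans_le h)]
    exact h' ⟨i, hi⟩
  · rintro ⟨h, h'⟩
    refine ⟨h, fun i => ?_⟩
    have := h' i.1 i.2
    rwa [Node.tot_of_lt i.2, Node.tot_of_lt (lt_of_lt_of_le i.2 h)] at this

theorem Node.eq_of_tot {s t : Node κ} (h : s.len = t.len) (h' : ∀ i < s.len, s.tot i = t.tot i) :
    s = t := by
  obtain ⟨α, f⟩ := s
  obtain ⟨β, g⟩ := t
  simp only at h
  subst h
  congr 1
  funext i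
  have := h' i.1 i.2
  rwa [Node.tot_of_lt (t := ⟨α, f⟩) i.2, Node.tot_of_lt (t := ⟨α, g⟩) i.2] at this

theorem InitSeg.refl (t : Node κ) : InitSeg t t := initSeg_iff.2 ⟨le_rfl, fun _ _ => rfl⟩

theorem InitSeg.trans {r s t : Node κ} (h : InitSeg r s) (h' : InitSeg s t) : InitSeg r t := by
  rw [initSeg_iff] at *
  exact ⟨h.1.trans h'.1, fun i hi => (h.2 i hi).trans (h'.2 i (hi.trans_le h.1))⟩

/-- the full tree with admissible values `M a` at level `a` -/
def full (M : κ.ord.ToType → Set κ.ord.ToType) : Set (Node κ) :=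
  {t | ∀ i < t.len, t.tot i ∈ M i}

theorem mkNode_mem_full {M : κ.ord.ToType → Set κ.ord.ToType} {α : κ.ord.ToType}
    {f : κ.ord.ToType → κ.ord.ToType} (h : ∀ i < α, f i ∈ M i) : mkNode α f ∈ full M :=
  fun i hi => by rw [tot_mkNode (α := α) hi]; exact h i hi

theorem tot_mem_P {M : κ.ord.ToType → Set κ.ord.ToType} {t : Node κ} (ht : t ∈ full M) :
    t.tot ∈ P M t.len := ⟨ht, fun _ ha => dif_neg ha⟩

theorem tot_mem_P' {M : κ.ord.ToType → Set κ.ord.ToType} {t : Node κ} {α : κ.ord.ToType}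
    (ht : t ∈ full M) (h : t.len = α) : t.tot ∈ P M α := h ▸ tot_mem_P ht

theorem chain_comparable {B : Set (Node κ)} (hB : IsChain InitSeg B) {s t : Node κ} (hs : s ∈ B)
    (ht : t ∈ B) : InitSeg s t ∨ InitSeg t s := by
  by_cases h : s = t
  · subst h; exact Or.inl (InitSeg.refl _)
  · exact hB hs ht h

theorem chain_tot_eq {B : Set (Node κ)} (hB : IsChain InitSeg B) {s t : Node κ} (hs : s ∈ B)
    (ht : t ∈ B) {i : κ.ord.ToType} (his : i < s.len) (hit : i < t.len) : s.tot i = t.tot i := by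
  rcases chain_comparable hB hs ht with h | h
  · exact (initSeg_iff.1 h).2 i his
  · exact ((initSeg_iff.1 h).2 i hit).symm

theorem full_regular [NoMaxOrder κ.ord.ToType] {M : κ.ord.ToType → Set κ.ord.ToType}
    (hM0 : ∀ a, (M a).Nonempty) (hM : ∀ a, ∃ b, a ≤ b ∧ (M b).Nontrivial)
    (hP : ∀ a, #(P M a) < κ) : IsRegularTree (full M) := by
  classical
  choose m hm using hM0
  refine ⟨fun t ht s hs i hi => ?_, fun α => ⟨mkNode α m, mkNode_mem_full fun i _ => hm i, rfl⟩,
    fun α => lt_of_le_of_lt ?_ (hP α), fun B hB α => ?_, fun t ht => ?_⟩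
  · rw [initSeg_iff] at hs
    rw [hs.2 i hi]
    exact ht i (hi.trans_le hs.1)
  · refine mk_le_of_injective
      (f := fun t : level (full M) α => (⟨t.1.tot, tot_mem_P' t.2.1 t.2.2⟩ : P M α)) ?_
    intro s t h
    have h' : s.1.tot = t.1.tot := congrArg Subtype.val h
    exact Subtype.ext (Node.eq_of_tot (s.2.2.trans t.2.2.symm) fun i _ => by rw [h'])
  · let f : κ.ord.ToType → κ.ord.ToType := fun i =>
      if h : ∃ t ∈ B, i < t.len then h.choose.tot i else m i
    have hf : ∀ t ∈ B, ∀ i < t.len, f i = t.tot i := by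
      intro t ht i hi
      have h : ∃ t ∈ B, i < t.len := ⟨t, ht, hi⟩
      simp only [f, dif_pos h]
      exact chain_tot_eq hB.1.2 h.choose_spec.1 ht h.choose_spec.2 hi
    have hu : mkNode α f ∈ full M := by
      refine mkNode_mem_full fun i _ => ?_
      by_cases h : ∃ t ∈ B, i < t.len
      · obtain ⟨t, ht, hi⟩ := h
        rw [hf t ht i hi]
        exact hB.1.1 ht i hi
      · simp only [f, dif_neg h]; exact hm i
    have hchain : IsChain InitSeg (insert (mkNode α f) B) := by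
      refine hB.1.2.insert fun t ht _ => ?_
      rcases le_total α t.len with h | h
      · exact Or.inl (initSeg_iff.2 ⟨h, fun i hi => by
          rw [tot_mkNode (α := α) hi, hf t ht i (lt_of_lt_of_le hi h)]⟩)
      · exact Or.inr (initSeg_iff.2 ⟨h, fun i hi => by
          rw [tot_mkNode (hi.trans_le h), hf t ht i hi]⟩)
    exact ⟨mkNode α f, hB.2 ⟨insert_subset hu hB.1.1, hchain⟩ (subset_insert _ _)
      (mem_insert _ _), rfl⟩
  · obtain ⟨b, hb, y₁, hy₁, y₂, hy₂, hne⟩ := hM t.len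
    obtain ⟨β, hβ⟩ := exists_gt b
    let g : κ.ord.ToType → κ.ord.ToType → κ.ord.ToType := fun y i =>
      if i < t.len then t.tot i else if i = b then y else m i
    have hg : ∀ y ∈ M b, mkNode β (g y) ∈ full M := fun y hy => by
      refine mkNode_mem_full fun i _ => ?_
      simp only [g]
      split_ifs with h1 h2
      · exact ht i h1
      · rw [h2]; exact hy
      · exact hm i
    have hinit : ∀ y, InitSeg t (mkNode β (g y)) := fun y =>
      initSeg_iff.2 ⟨hb.trans hβ.le, fun i hi => by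
        rw [tot_mkNode ((hi.trans_le hb).trans hβ)]; simp [g, hi]⟩
    have hinc : ∀ y y', y ≠ y' → ¬ InitSeg (mkNode β (g y)) (mkNode β (g y')) := by
      intro y y' hyy h
      have := (initSeg_iff.1 h).2 b hβ
      rw [tot_mkNode hβ, tot_mkNode hβ] at this
      exact hyy (by simpa [g, not_lt.2 hb] using this)
    exact ⟨_, hg y₁ hy₁, _, hg y₂ hy₂, hinit _, hinit _, hinc _ _ hne, hinc _ _ hne.symm⟩

theorem IsRegularTree.exists_extension {T : Set (Node κ)} (hT : IsRegularTree T) {t : Node κ}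
    (ht : t ∈ T) {δ : κ.ord.ToType} (hδ : t.len ≤ δ) : ∃ s ∈ T, InitSeg t s ∧ s.len = δ := by
  obtain ⟨B, htB, hB⟩ := zorn_subset_nonempty {C : Set (Node κ) | C ⊆ T ∧ IsChain InitSeg C}
    (fun c hc hcc _ => ⟨⋃₀ c, ⟨sUnion_subset fun C hC => (hc hC).1, by
      rintro x ⟨C, hC, hx⟩ y ⟨D, hD, hy⟩ hxy
      rcases hcc.total hC hD with h | h
      · exact (hc hD).2 (h hx) hy hxy
      · exact (hc hC).2 hx (h hy) hxy⟩, fun C hC => subset_sUnion_of_mem hC⟩)
    {t} ⟨singleton_subset_iff.2 ht, IsChain.singleton⟩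
  obtain ⟨s, hs, hlen⟩ := hT.branch B hB δ
  refine ⟨s, hB.1.1 hs, ?_, hlen⟩
  have htB' : t ∈ B := htB rfl
  exact initSeg_iff.2 ⟨hlen ▸ hδ, fun i hi =>
    chain_tot_eq hB.1.2 htB' hs hi (hlen ▸ hi.trans_le hδ)⟩

theorem rich_of_strong [NoMaxOrder κ.ord.ToType] {M : κ.ord.ToType → Set κ.ord.ToType}
    {A : Set κ.ord.ToType} {T' : Set (Node κ)} (h : IsStrongSubtree (full M) A T') :
    Rich M A fun δ => Node.tot '' level T' δ := by
  classical
  refine ⟨fun δ => (h.regular.height δ).image _, ?_, ?_⟩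
  · rintro δ _ ⟨t, ⟨ht, rfl⟩, rfl⟩
    exact h.subset ht
  · rintro α hα δ hαδ _ ⟨t, ⟨ht, rfl⟩, rfl⟩ y hy
    let g : κ.ord.ToType → κ.ord.ToType := fun i => if i < t.len then t.tot i else y
    have hs : mkNode (succ t.len) g ∈ full M := by
      refine mkNode_mem_full fun i hi => ?_
      rcases (lt_succ_iff.1 hi).eq_or_lt with rfl | hi
      · simpa [g] using hy
      · simpa [g, hi] using h.subset ht i hi
    have hinit : InitSeg t (mkNode (succ t.len) g) :=
      initSeg_iff.2 ⟨le_succ _, fun i hi => by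
        rw [tot_mkNode (hi.trans (lt_succ _))]; simp [g, hi]⟩
    have hs' := h.mem_case t ht hα _ hs ⟨hinit, covBy_succ _⟩
    obtain ⟨r, hr, hsr, hlen⟩ := h.regular.exists_extension hs' (δ := δ) (succ_le_of_lt hαδ)
    refine ⟨r.tot, ⟨r, ⟨hr, hlen⟩, rfl⟩, fun i hi => ?_, ?_⟩
    · exact ((initSeg_iff.1 (hinit.trans hsr)).2 i hi).symm
    · rw [← (initSeg_iff.1 hsr).2 t.len (lt_succ _), tot_mkNode (lt_succ _)]
      simp [g]

/-- a strong subtree has cofinally many witnessing levels at which the full tree branches -/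
theorem IsStrongSubtree.exists_branching [NoMaxOrder κ.ord.ToType]
    {M : κ.ord.ToType → Set κ.ord.ToType} {A : Set κ.ord.ToType} {T' : Set (Node κ)}
    (h : IsStrongSubtree (full M) A T') (z : κ.ord.ToType) :
    ∃ α ∈ A, z ≤ α ∧ (M α).Nontrivial := by
  obtain ⟨t, ht, rfl⟩ := h.regular.height z
  obtain ⟨s₁, hs₁, s₂, hs₂, h1, h2, h3, h4⟩ := h.regular.split t ht
  have hne : {i | i < s₁.len ∧ i < s₂.len ∧ s₁.tot i ≠ s₂.tot i}.Nonempty := by
    by_contra hn
    rw [Set.not_nonempty_iff_eq_empty, Set.eq_empty_iff_forall_notMem] at hn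
    rcases le_total s₁.len s₂.len with hl | hl
    · refine h3 (initSeg_iff.2 ⟨hl, fun i hi => ?_⟩)
      by_contra hc
      exact hn i ⟨hi, hi.trans_le hl, hc⟩
    · refine h4 (initSeg_iff.2 ⟨hl, fun i hi => ?_⟩)
      by_contra hc
      exact hn i ⟨hi.trans_le hl, hi, fun h' => hc h'.symm⟩
  obtain ⟨α, ⟨hα1, hα2, hα3⟩, hmin⟩ := wellFounded_lt.has_min _ hne
  have hagree : ∀ i < α, s₁.tot i = s₂.tot i := fun i hi => by
    by_contra hc
    exact hmin i ⟨hi.trans hα1, hi.trans hα2, hc⟩ hi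
  have hrestr : ∀ s ∈ T', ∀ β ≤ s.len, mkNode β s.tot ∈ T' := fun s hs β hβ =>
    h.regular.closed s hs _ (initSeg_iff.2 ⟨hβ, fun i hi => tot_mkNode (α := β) hi _⟩)
  refine ⟨α, ?_, ?_, _, h.subset hs₁ α hα1, _, h.subset hs₂ α hα2, hα3⟩
  · by_contra hA
    obtain ⟨r, -, hr⟩ := h.notMem_case _ (hrestr s₁ hs₁ α hα1.le) hA
    have e1 := hr _ ⟨hrestr s₁ hs₁ (succ α) (succ_le_of_lt hα1),
      initSeg_iff.2 ⟨le_succ α, fun i hi => by
        rw [tot_mkNode (α := α) hi, tot_mkNode (lt_trans hi (lt_succ α))]⟩, covBy_succ α⟩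
    have e2 := hr _ ⟨hrestr s₂ hs₂ (succ α) (succ_le_of_lt hα2),
      initSeg_iff.2 ⟨le_succ α, fun i hi => by
        rw [tot_mkNode (α := α) hi, tot_mkNode (lt_trans hi (lt_succ α)), hagree i hi]⟩,
      covBy_succ α⟩
    have e3 := congrArg (fun s : Node κ => s.tot α) (e1.trans e2.symm)
    simp only [tot_mkNode (lt_succ α)] at e3
    exact hα3 e3
  · by_contra! hlt
    exact hα3 (((initSeg_iff.1 h1).2 α hlt).symm.trans ((initSeg_iff.1 h2).2 α hlt))

end Pool.Agent.Work.MP_667be6_lc
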