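import Pool.Agent.Work.MP_667be6_lc.GCH
import Pool.Agent.Work.MP_667be6_lc.Tree
import Mathlib.Order.WellQuasiOrder

/-!
Under `V = L` there is a system of small set mappings catching all pairs of nodes at all but
finitely many levels, for every inaccessible height: compare the collapses of hulls.
-/

universe u

namespace Pool.Agent.Work.MP_667be6_lc

open Cardinal Ordinal Order Set

theorem exists_closing_op : ∃ F : Finset Ordinal.{u} → Set Ordinal.{u}, (∀ s, (F s).Countable) ∧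
    ∀ X : Set Ordinal.{u}, (∀ s : Finset Ordinal.{u}, (s : Set Ordinal.{u}) ⊆ X → F s ⊆ X) →
      Closed X := by
  classical
  have hsupp : ∀ (α : Ordinal.{u}) (x : ZFSet.{u}), ∃ s : Finset Ordinal.{u},
      x ∈ L α → Hull s α x := by
    intro α x
    by_cases hx : x ∈ L α
    · obtain ⟨s, hs⟩ := exists_finite_hull hx
      exact ⟨s, fun _ => hs⟩
    · exact ⟨∅, fun h => (hx h).elim⟩
  choose supp hsupp using hsupp
  have hwit : ∀ x x' : ZFSet.{u}, ∃ a, ¬ x ⊆ x' → a ∈ x ∧ a ∉ x' := by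
    intro x x'
    by_cases h : x ⊆ x'
    · exact ⟨∅, fun h' => (h' h).elim⟩
    · rw [ZFSet.subset_def] at h
      push Not at h
      obtain ⟨a, ha⟩ := h
      exact ⟨a, fun _ => ha⟩
  choose wit hwit using hwit
  let H : Finset Ordinal.{u} → Set ZFSet.{u} := fun s => {x | ∃ β, Hull s β x}
  have hH : ∀ s, (H s).Countable := fun s => by
    rw [← Cardinal.le_aleph0_iff_set_countable]
    refine (card_hull_le _).trans (max_le ?_ le_rfl)
    exact Cardinal.mk_le_aleph0
  let F : Finset Ordinal.{u} → Set Ordinal.{u} := fun s =>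
    ⋃ α ∈ s, ⋃ x ∈ H s, ⋃ x' ∈ H s, ((supp α (wit x x') : Set Ordinal.{u}) ∪ supp α x)
  have hF : ∀ s, (F s).Countable := fun s =>
    s.countable_toSet.biUnion fun α _ => (hH s).biUnion fun x _ => (hH s).biUnion fun x' _ =>
      (Finset.countable_toSet _).union (Finset.countable_toSet _)
  refine ⟨F, hF, fun X hcl => ?_⟩
  have key : ∀ α ∈ X, ∀ x x', Hull X (α + 1) x → Hull X (α + 1) x' →
      (supp α (wit x x') : Set Ordinal.{u}) ∪ supp α x ⊆ X := by
    intro α hα x x' hx hx'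
    obtain ⟨s, hs, hx⟩ := hx.finite
    obtain ⟨s', hs', hx'⟩ := hx'.finite
    have hsub : ((insert α (s ∪ s') : Finset Ordinal.{u}) : Set Ordinal.{u}) ⊆ X := by
      intro a ha
      simp only [Finset.coe_insert, Finset.coe_union, Set.mem_insert_iff, Set.mem_union] at ha
      rcases ha with rfl | ha | ha
      exacts [hα, hs ha, hs' ha]
    refine subset_trans ?_ (hcl _ hsub)
    intro a ha
    simp only [F, Set.mem_iUnion]
    refine ⟨α, by simp, x, ⟨α + 1, hx.mono ?_⟩, x', ⟨α + 1, hx'.mono ?_⟩, ha⟩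
    · intro b hb; simp [show b ∈ s from hb]
    · intro b hb; simp [show b ∈ s' from hb]
  refine ⟨fun α hα x x' hx hx' hn => ?_, fun α hα x hx hxL => ?_⟩
  · have hxL : x ⊆ L α := by
      have := hx.mem_L
      rw [L_add_one] at this
      exact subset_of_mem_Def this
    refine ⟨wit x x', (hsupp α _ (hxL (hwit x x' hn).1)).mono ?_, hwit x x' hn⟩
    exact subset_trans Set.subset_union_left (key α hα x x' hx hx')
  · exact (hsupp α x hxL).mono (subset_trans Set.subset_union_right (key α hα x x hx hx))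

/-- a monotone closure operator whose values, and unions of increasing sequences of values,
are closed -/
theorem exists_closure_operator : ∃ cl : Set Ordinal.{u} → Set Ordinal.{u}, Monotone cl ∧
    (∀ Y, Y ⊆ cl Y) ∧ (∀ Y, #(cl Y) ≤ max #Y ℵ₀) ∧ (∀ Y, Closed (cl Y)) ∧
    ∀ Y : ℕ → Set Ordinal.{u}, Monotone Y → Closed (⋃ n, cl (Y n)) := by
  obtain ⟨F, hF, hcl⟩ := exists_closing_op.{u}
  let cl : Set Ordinal.{u} → Set Ordinal.{u} := fun Y =>
    ⋂₀ {X | Y ⊆ X ∧ ∀ s : Finset Ordinal.{u}, (s : Set Ordinal.{u}) ⊆ X → F s ⊆ X}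
  have hmono : Monotone cl := fun Y Y' h =>
    subset_sInter fun X hX => sInter_subset_of_mem (And.intro (subset_trans h hX.1) hX.2)
  have hc : ∀ Y (s : Finset Ordinal.{u}), (s : Set Ordinal.{u}) ⊆ cl Y → F s ⊆ cl Y :=
    fun Y s hs => subset_sInter fun X hX => hX.2 s (hs.trans (sInter_subset_of_mem hX))
  refine ⟨cl, hmono, fun Y => subset_sInter fun X hX => hX.1, fun Y => ?_,
    fun Y => hcl _ (hc Y), fun Y hY => hcl _ fun s hs => ?_⟩
  · obtain ⟨X, h1, h2, h3⟩ := exists_closure F hF Y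
    have hsub : cl Y ⊆ X := sInter_subset_of_mem (And.intro h1 h3)
    exact (mk_le_mk_of_subset hsub).trans h2
  · choose! g hg using fun x (hx : x ∈ s) => Set.mem_iUnion.1 (hs hx)
    refine (hc (Y (s.sup g)) s fun x hx => ?_).trans (subset_iUnion (fun n => cl (Y n)) _)
    exact hmono (hY (Finset.le_sup (f := g) hx)) (hg x hx)

/-- the formula `v₀ ∈ v₁ ∧ v₀ ∈ v₂` -/
def finter : Fml 3 := .and (.mem 0 1) (.mem 0 2)

/-- Comparison of two hulls: if the collapse of the first is not higher than the collapse of the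
second, then the second hull contains a set that agrees with `q` on the common fixed part. -/
theorem exists_agree {X X' : Set Ordinal.{u}} (hX : Closed X) (hX' : Closed X')
    {γ : Ordinal.{u}} (hle : col X γ ≤ col X' γ) {q : ZFSet.{u}} (hq : Hull X γ q) :
    ∃ q', Hull X' γ q' ∧ ∀ δ : Ordinal.{u}, Iio δ ⊆ X → Iio δ ⊆ X' → ∀ a ∈ L δ,
      (a ∈ q' ↔ a ∈ q) := by
  obtain ⟨y, hy⟩ := hq.exists_rel
  obtain ⟨q', hq'⟩ := rel_surj (L_mono hle hy.mem_right)
  refine ⟨q', hq'.hull, fun δ h1 h2 a ha => ?_⟩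
  have e1 := (iso_all hX (max γ δ) _ _ _ _ ((rel_self h1 ha).mono (le_max_right γ δ))
    (hy.mono (le_max_left γ δ))).1
  have e2 := (iso_all hX' (max γ δ) _ _ _ _ ((rel_self h2 ha).mono (le_max_right γ δ))
    (hq'.mono (le_max_left γ δ))).1
  exact e2.trans e1.symm

theorem hull_of_inter {X : Set Ordinal.{u}} (hX : Closed X) {γ : Ordinal.{u}} (hγ : γ ∈ X)
    {q B a : ZFSet.{u}} (hq : Hull X γ q) (hB : Hull X γ B) (ha : a ∈ q) (haB : a ∈ B)
    (huniq : ∀ b ∈ q, b ∈ B → b = a) : Hull X γ a := by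
  have h1 : Hull X (γ + 1) (dset γ finter ![q, B]) :=
    Hull.mk _ _ hγ (lt_add_one γ) (by simp [Fin.forall_fin_two, hq, hB])
  have h2 : Hull X (γ + 1) (dset γ (Fml.neg (Fml.eq 0 0) : Fml (0 + 1)) ![]) :=
    Hull.mk _ _ hγ (lt_add_one γ) (by simp)
  obtain ⟨b, hb, hb', -⟩ := hX.wit γ hγ _ _ h1 h2 (by
    intro hsub
    have := hsub (mem_dset.2 ⟨L_trans hq.mem_L ha, by simpa [finter] using ⟨ha, haB⟩⟩)
    simp [mem_dset] at this)
  have hb'' : b ∈ q ∧ b ∈ B := by simpa [finter] using (mem_dset.1 hb').2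
  rwa [← huniq b hb''.1 hb''.2]

theorem exists_system_L (hV : VeqL.{u}) {o : Ordinal.{u}} (E : Set o.ToType)
    (M : o.ToType → Set o.ToType)
    (ν : o.ToType → Cardinal.{u}) (hmono : Monotone ν) (hinf : ∀ a, ℵ₀ ≤ ν a)
    (hIio : ∀ a, #(Iio a) ≤ ν a)
    (hlow : ∀ a ∈ E, ∀ y ∈ M a, ν a ≤ #(Iio y))
    (hup : ∀ a ∈ E, ∀ b, a < b → ∀ y ∈ M a, #(Iio y) < ν b) (β : o.ToType) :
    ∃ G : (o.ToType → o.ToType) → o.ToType → Set o.ToType, (∀ f, ∀ a < β, #(G f a) ≤ ν a) ∧
      ∀ p ∈ P M β, ∀ q ∈ P M β, (free G β p q ∩ E).Finite := by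
  classical
  obtain ⟨cl, clmono, clsub, clcard, clclosed, clunion⟩ := exists_closure_operator.{u}
  let code : o.ToType → ZFSet.{u} := fun y => L (y : Ordinal.{u})
  have hcode : Function.Injective code := fun y z h => by
    have := L_injective h
    exact le_antisymm (coe_le_coe.1 this.le) (coe_le_coe.1 this.ge)
  let hat : (o.ToType → o.ToType) → ZFSet.{u} := fun f =>
    ZFSet.range fun a : (Iio β ∩ E : Set o.ToType) => code (f a.1)
  let B : o.ToType → ZFSet.{u} := fun a => ZFSet.range fun y : M a => code y.1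
  obtain ⟨γ, hγ1, hγ2⟩ : ∃ γ : Ordinal.{u}, (∀ f, hat f ∈ L γ) ∧ ∀ a, B a ∈ L γ := by
    choose r hr using hV
    refine ⟨max (⨆ f, r (hat f)) (⨆ a, r (B a)), fun f => L_mono ?_ (hr _),
      fun a => L_mono ?_ (hr _)⟩
    · exact (Ordinal.le_iSup (fun f => r (hat f)) f).trans (le_max_left _ _)
    · exact (Ordinal.le_iSup (fun a => r (B a)) a).trans (le_max_right _ _)
  choose sh hsh using fun f => exists_finite_hull (hγ1 f)
  choose sB hsB using fun a => exists_finite_hull (hγ2 a)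
  let Y : (o.ToType → o.ToType) → o.ToType → Set Ordinal.{u} := fun f a =>
    insert γ (Iio (ν a).ord ∪ ((sh f : Set Ordinal.{u}) ∪ ⋃ b : Iic a, (sB b.1 : Set Ordinal.{u})))
  have hYmono : ∀ f, Monotone (Y f) := fun f a b hab =>
    insert_subset_insert (union_subset_union (Iio_subset_Iio (Cardinal.ord_le_ord.2 (hmono hab)))
      (union_subset_union subset_rfl (iUnion_subset fun c =>
        subset_iUnion (fun b : Iic b => (sB b.1 : Set Ordinal.{u})) ⟨c.1, le_trans c.2 hab⟩)))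
  have hYcard : ∀ f a, #(Y f a) ≤ Cardinal.lift.{u + 1} (ν a) := by
    intro f a
    have hi : ℵ₀ ≤ Cardinal.lift.{u + 1} (ν a) := by simpa using hinf a
    refine mk_insert_le.trans (add_le_of_le hi ?_ (one_le_aleph0.trans hi))
    refine (mk_union_le _ _).trans (add_le_of_le hi ?_ ?_)
    · rw [Cardinal.mk_Iio_ordinal, Cardinal.card_ord]
    refine (mk_union_le _ _).trans (add_le_of_le hi (mk_le_aleph0.trans hi) ?_)
    have := mk_iUnion_le_lift fun b : Iic a => (sB b.1 : Set Ordinal.{u})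
    rw [Cardinal.lift_id'.{u, u + 1}] at this
    refine this.trans (mul_le_of_le hi ?_ (ciSup_le' fun b => ?_))
    · rw [Cardinal.lift_le, ← Iio_insert]
      exact mk_insert_le.trans (add_le_of_le (hinf a) (hIio a) (one_le_aleph0.trans (hinf a)))
    · rw [Cardinal.lift_id'.{u, u + 1}]
      exact mk_le_aleph0.trans hi
  let G : (o.ToType → o.ToType) → o.ToType → Set o.ToType := fun f a =>
    {y | Hull (cl (Y f a)) γ (code y)}
  have key : ∀ p, ∀ q ∈ P M β, ∀ a : ℕ → o.ToType, StrictMono a → (∀ n, a n < β) →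
      (∀ n, a n ∈ E) →
      col (⋃ n, cl (Y q (a n))) γ ≤ col (⋃ n, cl (Y p (a n))) γ → ∃ n, q (a n) ∈ G p (a n) := by
    intro p q hq a ha haβ haE hle
    have hsub : ∀ f n, Y f (a n) ⊆ ⋃ n, cl (Y f (a n)) := fun f n =>
      (clsub _).trans (subset_iUnion (fun n => cl (Y f (a n))) n)
    obtain ⟨q', hq', hagree⟩ := exists_agree
      (clunion _ fun m n h => hYmono q (ha.monotone h))
      (clunion _ fun m n h => hYmono p (ha.monotone h)) hle
      ((hsh q).mono fun x hx => hsub q 0 (Or.inr (Or.inr (Or.inl hx))))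
    obtain ⟨s, hs, hq''⟩ := hq'.finite
    choose! g hg using fun x (hx : x ∈ s) => Set.mem_iUnion.1 (hs hx)
    let n := s.sup g
    have hsn : (s : Set Ordinal.{u}) ⊆ cl (Y p (a n)) := fun x hx =>
      clmono (hYmono p (ha.monotone (Finset.le_sup (f := g) hx))) (hg x hx)
    have hag : ∀ y ∈ M (a n), (code y ∈ q' ↔ code y ∈ hat q) := by
      intro y hy
      refine hagree (ν (a (n + 1))).ord (fun x hx => hsub q (n + 1) (Or.inr (Or.inl hx)))
        (fun x hx => hsub p (n + 1) (Or.inr (Or.inl hx))) _ (L_mem_L ?_)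
      exact Cardinal.lt_ord.2 (hup _ (haE n) _ (ha (Nat.lt_succ_self n)) y hy)
    have hqM := hq.1 _ (haβ n)
    refine ⟨n, hull_of_inter (clclosed _) (clsub _ (Or.inl rfl)) (hq''.mono hsn)
      ((hsB (a n)).mono fun x hx => clsub _ (Or.inr (Or.inr (Or.inr
        (mem_iUnion.2 ⟨⟨a n, Set.self_mem_Iic⟩, hx⟩)))))
      ((hag _ hqM).2 (ZFSet.mem_range.2 ⟨⟨a n, haβ n, haE n⟩, rfl⟩))
      (ZFSet.mem_range.2 ⟨⟨_, hqM⟩, rfl⟩) fun b hb hbB => ?_⟩
    obtain ⟨y, rfl⟩ := ZFSet.mem_range.1 hbB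
    obtain ⟨c, hc⟩ := ZFSet.mem_range.1 ((hag _ y.2).1 hb)
    have hc' : q c.1 = y.1 := hcode hc
    have hcM := hq.1 _ c.2.1
    rcases lt_trichotomy c.1 (a n) with h | h | h
    · exact absurd (hlow _ (haE n) _ y.2) (not_le.2 (hc' ▸ hup _ c.2.2 _ h _ hcM))
    · rw [← hc', h]
    · exact absurd (hlow _ c.2.2 _ hcM) (not_le.2 (hc' ▸ hup _ (haE n) _ h _ y.2))
  refine ⟨G, fun f a _ => ?_, fun p hp q hq => ?_⟩
  · rw [← Cardinal.lift_le.{u + 1}]
    have hi : ℵ₀ ≤ Cardinal.lift.{u + 1} (ν a) := by simpa using hinf a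
    refine le_trans ?_ ((card_hull_le (cl (Y f a))).trans
      (max_le ((clcard _).trans (max_le (hYcard f a) hi)) hi))
    have := Cardinal.lift_mk_le'.2 ⟨⟨fun y : G f a =>
      (⟨code y.1, γ, y.2⟩ : {x : ZFSet.{u} | ∃ β, Hull (cl (Y f a)) β x}),
      fun y z h => Subtype.ext (hcode (congrArg Subtype.val h))⟩⟩
    rwa [Cardinal.lift_id'.{u, u + 1}] at this
  · by_contra hinfinite
    have hinfinite : (free G β p q ∩ E).Infinite := hinfinite
    obtain ⟨g, hg⟩ := (wellQuasiOrdered_le (α := o.ToType)).exists_monotone_subseq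
      fun n => (hinfinite.natEmbedding _ n).1
    let a : ℕ → o.ToType := fun n => (hinfinite.natEmbedding _ (g n)).1
    have hmem : ∀ n, a n ∈ free G β p q ∩ E := fun n => (hinfinite.natEmbedding _ (g n)).2
    have ha : StrictMono a := Monotone.strictMono_of_injective (fun m n h => hg m n h)
      fun m n h => g.injective ((hinfinite.natEmbedding _).injective (Subtype.ext h))
    rcases le_total (col (⋃ n, cl (Y q (a n))) γ) (col (⋃ n, cl (Y p (a n))) γ) with h | h
    · obtain ⟨n, hn⟩ := key p q hq a ha (fun n => (hmem n).1.1) (fun n => (hmem n).2) h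
      exact (hmem n).1.2.2 hn
    · obtain ⟨n, hn⟩ := key q p hp a ha (fun n => (hmem n).1.1) (fun n => (hmem n).2) h
      exact (hmem n).1.2.1 hn

end Pool.Agent.Work.MP_667be6_lc
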