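import Pool.Agent.Lib.Sharp.Sq1A
import Pool.Agent.Lib.Sharp.Cond
import Mathlib.Tactic.FinCases

/-!
Comparison of hulls of the term machine for `L` below a limit ordinal, and least upper bounds of
countable chains of hulls.
-/

namespace Pool.Agent.Work.MP_667be6_lc.Two

open Pool.Agent.Lib.Sharp Sq1 Tm Cardinal Set

/-- a location of the machine and finitely many parameters -/
abbrev Ob := T × Finset Ordinal.{0}

/-- the hull of the ordinals below `ν` and the parameters -/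
abbrev K (z : Ob) (ν : Ordinal.{0}) : Set Ordinal.{0} := H ν z.1 z.2

/-- the hulls of `z` are contained in those of `w` from `d` up to `l` -/
def DomF (d l : Ordinal.{0}) (z w : Ob) : Prop := ∀ ν, d ≤ ν → ν < l → K z ν ∩ Iio l ⊆ K w ν

/-- the hulls of `z` are eventually contained in those of `w` below `l` -/
def Dom (l : Ordinal.{0}) (z w : Ob) : Prop := ∃ d < l, DomF d l z w

/-- the location of the collapse of the hull of `l` -/
noncomputable def ht (l : Ordinal.{0}) (z : Ob) : T :=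
  (exists_cond hasCond l z.1 z.2).choose_spec.choose_spec.choose_spec.choose

theorem ht_spec (l : Ordinal.{0}) (z : Ob) : ∃ ρ c σ, Cond z.1 (H l z.1 z.2) ρ c σ (ht l z) :=
  ⟨_, _, _, (exists_cond hasCond l z.1 z.2).choose_spec.choose_spec.choose_spec.choose_spec⟩

variable {l ν d ρ : Ordinal.{0}} {r s s' : T} {p q p' : Finset Ordinal.{0}} {V : Set Ordinal.{0}}
  {c σ : Ordinal.{0} → Ordinal.{0}} {x z w : Ob}

theorem H_le (h : d ≤ ν) : H d s p ⊆ H ν s p :=
  hull_mono le_rfl (union_subset_union_left _ (Iio_subset_Iio h))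

theorem fin_bound (hl : Order.IsSuccLimit l) (hq : (q : Set Ordinal.{0}) ⊆ H l s p) :
    ∃ d < l, (q : Set Ordinal.{0}) ⊆ H d s p := by
  obtain ⟨a, ha, h⟩ := hull_fin' hq
  obtain ⟨d, hd, h1⟩ := sup_lt hl.bot_lt (fun _ hx => hl.succ_lt hx) a
  refine ⟨d, hd, h.trans (hull_mono le_rfl fun y hy => ?_)⟩
  exact (ha hy).imp_left fun h2 => h1 y hy h2

theorem down (h : Cond r (H l r p) ρ c σ s)
    (hV : ∀ t : T, t.WF → t < s → (t.supp : Set Ordinal.{0}) ⊆ V) (hlV : Iio l ⊆ V) (hν : ν ≤ l) :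
    H ν r p ∩ Iio l ⊆ H ν s (cut V (p.image c)) := by
  rintro y ⟨hy, hyl⟩
  have h1 := h.c_hull (cl_hull _ _) (A := Iio ν ∪ p)
    (union_subset ((Iio_subset_Iio hν).trans K_H) p_H) hy
  rw [image_fix fun x hx => h.fix l K_H x (hx.trans_le hν), h.fix l K_H y hyl] at h1
  exact H_cut (B := {y}) hV (singleton_subset_iff.2 (hlV hyl)) (singleton_subset_iff.2 h1) rfl

theorem up (h : Cond r (H l r p) ρ c σ s) (hν : ν ≤ l) :
    H ν s (p.image c) ∩ Iio l ⊆ H ν r p := by
  rintro y ⟨hy, hyl⟩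
  have := h.σ_hull (union_subset (Iio_subset_Iio (hν.trans (h.le_ρ K_H))) (cond_qb h)) hy
  rwa [image_fix fun x hx => (h.σ_fix K_H (hx.trans_le hν)).2, cond_back h,
    (h.σ_fix K_H hyl).2] at this

theorem base (hl : Order.IsSuccLimit l) (hs : ht l z ≤ s')
    (hV : ∀ t : T, t.WF → t < ht l z → (t.supp : Set Ordinal.{0}) ⊆ V) (hlV : Iio l ⊆ V)
    (hV' : V ⊆ H l s' p') : Dom l z (s', p') := by
  obtain ⟨ρ, c, σ, h⟩ := ht_spec l z
  obtain ⟨d, hd, h1⟩ := fin_bound hl ((cut_sub (p := z.2.image c)).trans hV')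
  exact ⟨d, hd, fun ν h2 h3 => (down h hV hlV h3.le).trans (H_mono hs (h1.trans (H_le h2)))⟩

theorem dom_of_le (hl : Order.IsSuccLimit l) (h : ht l z ≤ ht l w) : Dom l z w := by
  obtain ⟨ρ, c, σ, hw⟩ := ht_spec l w
  obtain ⟨d, hd, h1⟩ := base (V := Iio ρ) hl h (fun t ht h' => hw.over t ht (h'.trans_le h))
    (Iio_subset_Iio (hw.le_ρ K_H)) (cond_Iio hw)
  exact ⟨d, hd, fun ν h2 h3 y hy => up hw h3.le ⟨h1 ν h2 h3 hy, hy.2⟩⟩

theorem dom_total (hl : Order.IsSuccLimit l) (z w : Ob) : Dom l z w ∨ Dom l w z :=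
  (le_total (ht l z) (ht l w)).imp (dom_of_le hl) (dom_of_le hl)

/-- an object that does not dominate a limit object is dominated by an approximation -/
theorem dom_cases (hl : Order.IsSuccLimit l) (hs : IsLim s) {t : ℕ → T}
    (ht' : ∀ u : T, u.WF → u < s → ∃ n, u ≤ t n) (p : Finset Ordinal.{0}) (x : Ob) :
    Dom l (s, p) x ∨ ∃ n, Dom l x (t n, p) := by
  rcases le_or_gt (ht l (s, p)) (ht l x) with h | h
  · exact Or.inl (dom_of_le hl h)
  obtain ⟨ρ, c, σ, hP⟩ := ht_spec l (s, p)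
  obtain ⟨ρ', c', σ', hx⟩ := ht_spec l x
  obtain ⟨h1, h2, -⟩ := cond_up hP hx.wf h
  have h3 := cond_σq hP (cut_sub (V := Iio ρ) (p := x.2.image c'))
  obtain ⟨u, hu, hus, h4⟩ := hull_cont' hs h3
  obtain ⟨n, hn⟩ := ht' (max u ((ht l x).map σ)) (by
    rcases max_choice u ((ht l x).map σ) with h | h <;> rwa [h]) (max_lt hus h2)
  obtain ⟨d, hd, h5⟩ := fin_bound hl (h4.trans (hull_mono ((le_max_left _ _).trans hn) le_rfl))
  refine Or.inr ⟨n, d, hd, fun ν h6 h7 y hy => ?_⟩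
  have h8 := down hx (V := Iio ρ) (fun t ht h' => hP.over t ht (h'.trans h))
    (Iio_subset_Iio (hP.le_ρ K_H)) h7.le hy
  have h9 := (hP.emb_σ.restrict h.le (hP.over _ hx.wf h)).image_hull (hP.cl.mono h.le)
    (union_subset (Iio_subset_Iio (h7.le.trans (hP.le_ρ K_H))) cut_sub) h8
  rw [image_fix fun x hx => (hP.σ_fix K_H (hx.trans h7)).2, (hP.σ_fix K_H hy.2).2] at h9
  exact H_mono ((le_max_right _ _).trans hn) (h5.trans (H_le h6)) h9

/-- the formula that reads a value off a set of pairs -/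
def fval : Fml 3 :=
  .and (.ex (.and (.mem 0 2) (.and (.neg (.ex (.and (.mem 0 1) (.neg (.mem 4 0)))))
    (.ex (.and (.mem 0 1) (.mem 2 0)))))) (.neg (.eq 0 2))

theorem val_level (a : Ordinal.{0}) : (Tm.mk a 0 (.eq 0 0) Fin.elim0 : T).val = L a := by
  ext y
  simp [Tm.val, mem_dset]

/-- under `V = L` every function is computed by the machine from finitely many parameters -/
theorem exists_fun (hV : VeqL.{0}) (θ : Ordinal.{0}) (f : Ordinal.{0} → Ordinal.{0}) :
    ∃ z : Ob, z.1.WF ∧ ∀ ξ < θ, ∀ ν, ξ < ν → f ξ ∈ K z ν := by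
  classical
  let F : ZFSet.{0} := ZFSet.range fun ξ : Iio θ => ZFSet.pair (L ξ.1) (L (f ξ.1))
  obtain ⟨α₀, hα₀⟩ := hV F
  let α := max α₀ θ
  have hF : F ∈ L α := L_mono (le_max_left _ _) hα₀
  obtain ⟨u, hu, hul, huv⟩ := exists_val hF
  refine ⟨(first (α + 1), insert α u.supp), first_wf _, fun ξ hξ ν hν => ?_⟩
  by_cases hf : f ξ = ξ
  · rw [hf]
    exact K_H hν
  let a : T := Tm.mk ξ 0 (.eq 0 0) Fin.elim0
  have ha : a.WF := fun i => i.elim0
  let t : T := Tm.mk α 2 fval ![u, a]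
  have ht : t.WF := by
    intro i
    fin_cases i
    · exact ⟨hul, hu⟩
    · exact ⟨hξ.trans_le (le_max_right _ _), ha⟩
  have hpair : ZFSet.pair (L ξ) (L (f ξ)) ∈ F := ZFSet.mem_range.2 ⟨⟨ξ, hξ⟩, rfl⟩
  have hp1 := L_trans hF hpair
  have hp2 : ({L ξ, L (f ξ)} : ZFSet.{0}) ∈ L α := L_trans hp1 (by simp [ZFSet.pair])
  have hval : ∀ y, y ∈ t.val ↔ y = L (f ξ) := by
    intro y
    have e : t.val = dset α fval ![F, L ξ] := by
      simp only [t, Tm.val]
      congr 1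
      funext i
      fin_cases i
      · exact huv
      · exact val_level ξ
    rw [e, mem_dset]
    constructor
    · rintro ⟨-, ⟨w, -, hw, h1, v, -, hv, hy⟩, h2⟩
      obtain ⟨η, rfl⟩ := ZFSet.mem_range.1 (show w ∈ F from hw)
      have hw' := L_trans hF (show _ ∈ F from hw)
      have h3 : L ξ = L η.1 := by
        by_contra h3
        refine h1 ⟨{L η.1}, L_trans hw' (by simp [ZFSet.pair]), ?_, ?_⟩
        · change ({L η.1} : ZFSet.{0}) ∈ ZFSet.pair _ _
          simp [ZFSet.pair]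
        · change ¬ (L ξ ∈ ({L η.1} : ZFSet.{0}))
          simpa using h3
      have h4 : ξ = η.1 := L_injective h3
      have hv' : v ∈ ZFSet.pair (L η.1) (L (f η.1)) := hv
      have hy' : y ∈ v := hy
      have h2' : y ≠ L ξ := h2
      rw [← h4] at hv'
      simp only [ZFSet.pair, ZFSet.mem_insert_iff, ZFSet.mem_singleton] at hv'
      rcases hv' with rfl | rfl
      · exact absurd (by simpa using hy') h2'
      · simpa [h2'] using hy'
    · rintro rfl
      refine ⟨L_trans hp2 (by simp), ⟨_, hp1, hpair, ?_, _, hp2, ?_, ?_⟩, ?_⟩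
      · rintro ⟨v, -, hv, h1⟩
        have hv' : v ∈ ZFSet.pair (L ξ) (L (f ξ)) := hv
        refine h1 (show L ξ ∈ v from ?_)
        simp only [ZFSet.pair, ZFSet.mem_insert_iff, ZFSet.mem_singleton] at hv'
        rcases hv' with rfl | rfl <;> simp
      · change ({L ξ, L (f ξ)} : ZFSet.{0}) ∈ ZFSet.pair _ _
        simp [ZFSet.pair]
      · change L (f ξ) ∈ ({L ξ, L (f ξ)} : ZFSet.{0})
        simp
      · exact fun h => hf (L_injective h)
  obtain ⟨h1, h2, -, h3⟩ := S_spec ((hval _).2 rfl)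
  have h4 : (S t).lev = f ξ := by
    refine le_antisymm (lev_le_of_le (h3 (Tm.mk (f ξ) 0 (.eq 0 0) Fin.elim0) (fun i => i.elim0)
      ((hval _).2 (val_level _)))) (not_lt.1 fun h => ?_)
    have := h1.val_mem h
    rw [(hval _).1 h2] at this
    exact ZFSet.mem_irrefl _ this
  refine cl_hull _ _ t ht ((lt_first_iff ht).2 (lt_add_one α)) (fun b hb => ?_)
    (h4 ▸ (S t).lev_mem_supp)
  rcases mem_supp.1 hb with rfl | ⟨i, hi⟩
  · exact p_H (Finset.mem_insert_self _ _)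
  · fin_cases i
    · exact p_H (Finset.mem_insert_of_mem hi)
    · have : b = ξ := by simpa [a, mem_supp] using hi
      exact K_H (this ▸ hν)

/-- least upper bound of a countable chain -/
theorem exists_lub (hV : VeqL.{0}) (hl : Ordinal.omega0 ≤ l) {s : ℕ → T} (hw : ∀ k, (s k).WF)
    (hs : ∀ k, ∃ k', s k < s k') (hp : ∀ k, ∃ p, U (s k) ⊆ H l (s k) p) :
    ∃ (s' : T) (p : Finset Ordinal.{0}) (t : ℕ → T), IsLim s' ∧
      (∀ k, s k ≤ s' ∧ U (s k) ⊆ H l s' p) ∧ (∀ u : T, u.WF → u < s' → ∃ n, u ≤ t n) ∧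
      ∀ n, ∃ k, ht l (t n, p) ≤ s k := by
  classical
  choose q hq using hp
  have hq' : ∀ k, U (s k) ⊆ H l (s k) (cut (U (s k)) (q k)) := fun k =>
    H_cut_U le_rfl Subset.rfl (hq k)
  have hne : {u : T | u.WF ∧ (∀ k, s k ≤ u) ∧ ∃ p, ∀ k, U (s k) ⊆ H l u p}.Nonempty := by
    have hc : (insert 0 (⋃ k, (q k : Set Ordinal.{0}))).Countable :=
      (countable_iUnion fun k => (q k).countable_toSet).insert 0
    obtain ⟨g, hg⟩ := hc.exists_eq_range (insert_nonempty _ _)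
    obtain ⟨z, hz, h⟩ := exists_fun hV Ordinal.omega0 fun ξ =>
      if h : ∃ n : ℕ, ξ = n then g h.choose else 0
    have h1 : ∀ n, g n ∈ K z l := fun n => by
      have := h n (Ordinal.natCast_lt_omega0 n) l ((Ordinal.natCast_lt_omega0 n).trans_le hl)
      have h2 : ∃ m : ℕ, (n : Ordinal.{0}) = m := ⟨n, rfl⟩
      rwa [dif_pos h2, ← Nat.cast_injective h2.choose_spec] at this
    let b : Ordinal.{0} := max z.1.lev (⨆ k, (s k).lev) + 1
    have h2 : ∀ k, s k ≤ first b := fun k => ((lt_first_iff (hw k)).2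
      (((Ordinal.le_iSup (fun k => (s k).lev) k).trans (le_max_right _ _)).trans_lt
        (lt_add_one _))).le
    have h3 : z.1 ≤ first b := ((lt_first_iff hz).2 ((le_max_left _ _).trans_lt (lt_add_one _))).le
    refine ⟨first b, first_wf b, h2, z.2, fun k => (hq k).trans (H_mono (h2 k) fun y hy => ?_)⟩
    obtain ⟨n, rfl⟩ : y ∈ range g := hg ▸ Or.inr (mem_iUnion.2 ⟨k, hy⟩)
    exact hull_mono h3 le_rfl (h1 n)
  obtain ⟨s', ⟨hw', hle, p, hp⟩, hmin⟩ := wellFounded_lt.has_min _ hne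
  have hlt : ∀ k, s k < s' := fun k => by
    obtain ⟨k', hk⟩ := hs k
    exact hk.trans_le (hle k')
  have hlim : IsLim s' := by
    by_cases h : ∀ t : T, t.WF → t < s' → ∃ k, t < s k
    · refine ⟨⟨s 0, hw 0, hlt 0⟩, fun t ht hts => ?_⟩
      obtain ⟨k, hk⟩ := h t ht hts
      exact ⟨s k, hw k, hk, hlt k⟩
    push Not at h
    obtain ⟨t₀, ht₀, hts, h⟩ := h
    have key : ∀ t : T, t.WF → t < s' → ∀ p' : Finset Ordinal.{0},
        ¬ (⋃ k, U (s k)) ⊆ H l t p' := fun t ht h1 p' h2 =>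
      hmin (max t t₀) ⟨by rcases max_choice t t₀ with h | h <;> rwa [h],
        fun k => (h k).trans (le_max_right _ _), p', fun k =>
          ((subset_iUnion _ k).trans h2).trans (hull_mono (le_max_left _ _) le_rfl)⟩
        (max_lt h1 hts)
    refine isLim_of_min (B := ⋃ k, U (s k))
      (𝒜 := range fun p' : Finset Ordinal.{0} => Iio l ∪ (p' : Set Ordinal.{0})) ?_ ?_
      ⟨_, ⟨p, rfl⟩, iUnion_subset hp⟩ ?_
    · rintro _ ⟨p', rfl⟩ q'
      exact ⟨p' ∪ q', by simp only [Finset.coe_union, union_assoc]⟩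
    · rintro _ ⟨p', rfl⟩ h1
      exact key t₀ ht₀ hts p' (h1.trans (subset_hull _ _))
    · rintro t ht h1 _ ⟨p', rfl⟩
      exact key t ht h1 p'
  choose t' ht' hts' hqt using fun k => hull_cont' hlim ((cut_sub (p := q k)).trans (hp k))
  have hw2 : ∀ k, (max (t' k) (s k)).WF := fun k => by
    rcases max_choice (t' k) (s k) with h | h <;> rw [h]
    exacts [ht' k, hw k]
  refine ⟨s', p, fun k => max (t' k) (s k), hlim, fun k => ⟨hle k, hp k⟩, fun u hu hus => ?_,
    fun n => ?_⟩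
  · by_contra! h
    exact hmin u ⟨hu, fun k => (le_max_right _ _).trans (h k).le, p, fun k =>
      (hq' k).trans (H_mono ((le_max_right _ _).trans (h k).le) ((hqt k).trans
        (hull_mono ((le_max_left _ _).trans (h k).le) le_rfl)))⟩ hus
  · by_contra! h
    obtain ⟨ρ, c, σ, hC⟩ := ht_spec l (max (t' n) (s n), p)
    refine hmin _ ⟨hC.wf, fun k => (h k).le, _, fun k => Subset.trans ?_
      ((cond_U hC).trans (cond_Iio hC))⟩ ((hC.le (hw2 n)).trans_lt (max_lt (hts' n) (hlt n)))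
    exact fun y hy => lt_trans hy (h k)

end Pool.Agent.Work.MP_667be6_lc.Two
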