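import Pool.Agent.Work.MP_667be6_lc.Two1
import Pool.Agent.Work.MP_667be6_lc.Params
import Mathlib.Order.WellQuasiOrder

/-!
There is no large matrix of incomparable levels.
-/

namespace Pool.Agent.Work.MP_667be6_lc.Two

open Pool.Agent.Lib.Sharp Sq1 Tm Cardinal Set

/-- the hulls of `x` and `z` at `ν` are incomparable below `ν'` -/
def Inc (x z : Ob) (ν ν' : Ordinal.{0}) : Prop :=
  ¬ K x ν ∩ Iio ν' ⊆ K z ν ∧ ¬ K z ν ∩ Iio ν' ⊆ K x ν

theorem Inc.symm {x z : Ob} {ν ν' : Ordinal.{0}} (h : Inc x z ν ν') : Inc z x ν ν' := ⟨h.2, h.1⟩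

theorem core {x P : Ob} {w Q : ℕ → Ob} {ν : ℕ → Ordinal.{0}} (hν : StrictMono ν)
    (hi : ∀ k, Inc x (w k) (ν k) (ν (k + 1)))
    (h1 : ∀ k, K (w k) (ν k) ∩ Iio (iSup ν) ⊆ K P (ν k))
    (h2 : ∀ n, ∃ k₀, ∀ k, k₀ ≤ k → K (Q n) (ν k) ∩ Iio (iSup ν) ⊆ K (w k) (ν k))
    (h3 : Order.IsSuccLimit (iSup ν) → Dom (iSup ν) P x ∨ ∃ n, Dom (iSup ν) x (Q n)) : False := by
  have hle : ∀ k, ν k ≤ iSup ν := Ordinal.le_iSup ν
  have hlt : ∀ k, ν k < iSup ν := fun k => (hν (Nat.lt_succ_self k)).trans_le (hle _)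
  have hl : Order.IsSuccLimit (iSup ν) := by
    refine ⟨(hlt 0).not_isMin, Order.isSuccPrelimit_of_succ_lt fun b hb => ?_⟩
    obtain ⟨k, hk⟩ := Ordinal.lt_iSup_iff.1 hb
    exact (Order.succ_le_of_lt hk).trans_lt (hlt k)
  rcases h3 hl with ⟨d, hd, h⟩ | ⟨n, d, hd, h⟩
  · obtain ⟨k, hk⟩ := Ordinal.lt_iSup_iff.1 hd
    exact (hi k).2 fun y hy => h _ hk.le (hlt k)
      ⟨h1 k ⟨hy.1, lt_of_lt_of_le hy.2 (hle _)⟩, lt_of_lt_of_le hy.2 (hle _)⟩
  · obtain ⟨k, hk⟩ := Ordinal.lt_iSup_iff.1 hd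
    obtain ⟨k₀, h0⟩ := h2 n
    exact (hi (max k k₀)).1 fun y hy => h0 _ (le_max_right _ _)
      ⟨h _ (hk.le.trans (hν.monotone (le_max_left _ _))) (hlt _)
        ⟨hy.1, lt_of_lt_of_le hy.2 (hle _)⟩, lt_of_lt_of_le hy.2 (hle _)⟩

theorem exists_seq {I : Type} {S : Set I} (hS : S.Infinite) {N : I → Ordinal.{0}} (hN : InjOn N S)
    (h : I → T) :
    ∃ a : ℕ → I, (∀ k, a k ∈ S) ∧ StrictMono (fun k => N (a k)) ∧ Monotone fun k => h (a k) := by
  obtain ⟨g, hg⟩ := (wellQuasiOrdered_le (α := Ordinal.{0})).exists_monotone_subseq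
    fun n => N (hS.natEmbedding _ n).1
  obtain ⟨g', hg'⟩ := (wellQuasiOrdered_le (α := T)).exists_monotone_subseq
    fun n => h (hS.natEmbedding _ (g n)).1
  refine ⟨fun k => (hS.natEmbedding _ (g (g' k))).1, fun k => (hS.natEmbedding _ _).2,
    Monotone.strictMono_of_injective (fun m n hmn => hg _ _ (g'.monotone hmn)) fun m n e => ?_,
    fun m n hmn => hg' m n hmn⟩
  exact g'.injective (g.injective ((hS.natEmbedding _).injective (Subtype.ext
    (hN (hS.natEmbedding _ _).2 (hS.natEmbedding _ _).2 e))))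

theorem finite_inc {I : Type} {S : Set I} {N : I → Ordinal.{0}} (hN : InjOn N S) {x z : Ob}
    (h : ∀ i ∈ S, ∀ i' ∈ S, N i < N i' → Inc x z (N i) (N i')) : S.Finite := by
  by_contra hS
  obtain ⟨a, ha, h1, -⟩ := exists_seq hS hN fun _ => x.1
  exact core (P := z) (Q := fun _ => z) (w := fun _ => z) h1
    (fun k => h _ (ha k) _ (ha (k + 1)) (h1 (Nat.lt_succ_self k))) (fun _ => inter_subset_left)
    (fun _ => ⟨0, fun _ _ => inter_subset_left⟩) fun hl => (dom_total hl z x).imp_right fun h => ⟨0, h⟩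

theorem uniform {J : Type} (W : J → Ob) {l : Ordinal.{0}} (h0 : ℵ₀ < l.cof) (hJ : #J < l.cof) :
    ∃ d < l, ∀ j j', Dom l (W j) (W j') → DomF d l (W j) (W j') := by
  have hl : Order.IsSuccLimit l := Ordinal.one_lt_cof_iff.1 (one_lt_aleph0.trans h0)
  have : ∀ p : J × J, ∃ d < l, Dom l (W p.1) (W p.2) → DomF d l (W p.1) (W p.2) := by
    intro p
    by_cases h : Dom l (W p.1) (W p.2)
    · obtain ⟨d, hd, h⟩ := h
      exact ⟨d, hd, fun _ => h⟩
    · exact ⟨0, hl.bot_lt, fun h' => (h h').elim⟩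
  choose d hd h using this
  refine ⟨iSup d, Ordinal.iSup_lt_of_lt_cof ?_ hd, fun j j' h' ν h1 =>
    h (j, j') h' ν ((Ordinal.le_iSup d (j, j')).trans h1)⟩
  rw [mk_prod, lift_id]
  exact mul_lt_of_lt h0.le hJ hJ

/-- below a point of large cofinality, no object is incomparable with infinitely many members of a
small family at pairwise different late levels -/
theorem exists_bound (hV : VeqL.{0}) {I : Type} (z : I → Ob) {l : Ordinal.{0}} (h0 : ℵ₀ < l.cof)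
    (hI : #I < l.cof) : ∃ d < l, ∀ (x : Ob) (N : I → Ordinal.{0}) (S : Set I), InjOn N S →
      (∀ i ∈ S, d ≤ N i ∧ N i < l) →
      (∀ i ∈ S, ∀ i' ∈ S, N i < N i' → Inc x (z i) (N i) (N i')) → S.Finite := by
  classical
  have hl : Order.IsSuccLimit l := Ordinal.one_lt_cof_iff.1 (one_lt_aleph0.trans h0)
  let h : I → T := fun i => ht l (z i)
  let C : Option I → Set I := fun o => {i | ∀ i', o = some i' → h i < h i'}
  have hPQ : ∀ o : Option I, ∃ W : Option ℕ → Ob,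
      (∃ j : ℕ → I, (∀ k, j k ∈ C o) ∧ ∀ i ∈ C o, ∃ k, h i < h (j k)) →
      (∀ i ∈ C o, Dom l (z i) (W none)) ∧
      (∀ n, ∃ i₀ ∈ C o, ∀ i, h i₀ ≤ h i → Dom l (W (some n)) (z i)) ∧
      ∀ m, Order.IsSuccLimit m → ∀ x, Dom m (W none) x ∨ ∃ n, Dom m x (W (some n)) := by
    intro o
    by_cases hj : ∃ j : ℕ → I, (∀ k, j k ∈ C o) ∧ ∀ i ∈ C o, ∃ k, h i < h (j k)
    swap
    · exact ⟨fun _ => (first 0, ∅), fun h' => (hj h').elim⟩
    obtain ⟨j, hj, hj'⟩ := hj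
    obtain ⟨s, p, t, hs, h1, h2, h3⟩ := exists_lub hV (Ordinal.omega0_le_of_isSuccLimit hl)
      (s := fun k => h (j k)) (fun k => by
        obtain ⟨ρ, c, σ, hC⟩ := ht_spec l (z (j k))
        exact hC.wf) (fun k => hj' _ (hj k)) fun k => by
        obtain ⟨ρ, c, σ, hC⟩ := ht_spec l (z (j k))
        exact ⟨_, (cond_U hC).trans (cond_Iio hC)⟩
    refine ⟨fun n => n.elim (s, p) fun n => (t n, p), fun _ => ⟨fun i hi => ?_, fun n => ?_,
      fun m hm x => dom_cases hm hs h2 p x⟩⟩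
    · obtain ⟨k, hk⟩ := hj' i hi
      exact base (V := Iio l ∪ U (h (j k))) hl (hk.le.trans (h1 k).1)
        (fun u hu h' => (supp_U hu (h'.trans hk)).trans subset_union_right) subset_union_left
        (union_subset K_H (h1 k).2)
    · obtain ⟨k, hk⟩ := h3 n
      exact ⟨j k, hj k, fun i hi => dom_of_le hl (hk.trans hi)⟩
  choose W hW using hPQ
  obtain ⟨d, hd, hu⟩ := uniform (J := I ⊕ Option I × Option ℕ)
    (Sum.elim z fun p => W p.1 p.2) h0 (by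
      simp only [mk_sum, mk_prod, mk_option, lift_id, mk_nat]
      have h1 := one_lt_aleph0.trans h0
      exact add_lt_of_lt h0.le hI (mul_lt_of_lt h0.le (add_lt_of_lt h0.le hI h1)
        (add_lt_of_lt h0.le h0 h1)))
  refine ⟨d, hd, fun x N S hN hS hi => ?_⟩
  by_contra hinf
  obtain ⟨a, ha, h1, h2⟩ := exists_seq hinf hN h
  have hle : Iio (⨆ k, N (a k)) ⊆ Iio l :=
    Iio_subset_Iio (Ordinal.iSup_le fun k => (hS _ (ha k)).2.le)
  have hi' : ∀ k, Inc x (z (a k)) (N (a k)) (N (a (k + 1))) := fun k =>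
    hi _ (ha k) _ (ha (k + 1)) (h1 (Nat.lt_succ_self k))
  have use : ∀ j j', Dom l (Sum.elim z (fun p : Option I × Option ℕ => W p.1 p.2) j)
      (Sum.elim z (fun p : Option I × Option ℕ => W p.1 p.2) j') → ∀ k,
      K (Sum.elim z (fun p : Option I × Option ℕ => W p.1 p.2) j) (N (a k)) ∩
        Iio (⨆ k, N (a k)) ⊆
      K (Sum.elim z (fun p : Option I × Option ℕ => W p.1 p.2) j') (N (a k)) :=
    fun j j' h' k => (inter_subset_inter_right _ hle).trans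
      (hu j j' h' _ (hS _ (ha k)).1 (hS _ (ha k)).2)
  by_cases hb : ∃ k₀, ∀ k, h (a k) ≤ h (a k₀)
  · obtain ⟨k₀, hk⟩ := hb
    exact core (P := z (a k₀)) (Q := fun _ => z (a k₀)) h1 hi'
      (fun k => use (.inl (a k)) (.inl (a k₀)) (dom_of_le hl (hk k)) k)
      (fun _ => ⟨k₀, fun k hk => use (.inl (a k₀)) (.inl (a k)) (dom_of_le hl (h2 hk)) k⟩)
      fun hl => (dom_total hl _ x).imp_right fun h => ⟨0, h⟩
  push Not at hb
  obtain ⟨o, ho⟩ : ∃ o, ∀ i, i ∈ C o ↔ ∃ k, h i < h (a k) := by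
    by_cases h3 : (h '' {i | ∀ k, h (a k) ≤ h i}).Nonempty
    · obtain ⟨_, ⟨i', hi', rfl⟩, hmin⟩ := wellFounded_lt.has_min _ h3
      refine ⟨some i', fun i => ⟨fun h4 => ?_, ?_⟩⟩
      · by_contra! h5
        exact hmin _ ⟨i, h5, rfl⟩ (h4 i' rfl)
      · rintro ⟨k, hk⟩ _ ⟨⟩
        exact hk.trans_le (hi' k)
    · refine ⟨none, fun i => ⟨fun _ => ?_, fun _ _ h4 => by cases h4⟩⟩
      by_contra! h5
      exact h3 ⟨_, i, h5, rfl⟩
  have hmem : ∀ k, a k ∈ C o := fun k => (ho _).2 (hb k)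
  obtain ⟨h3, h4, h5⟩ := hW o ⟨a, hmem, fun i hi => (ho i).1 hi⟩
  refine core (P := W o none) (Q := fun n => W o (some n)) h1 hi'
    (fun k => use (.inl (a k)) (.inr (o, none)) (h3 _ (hmem k)) k) (fun n => ?_)
    fun hl => h5 _ hl x
  obtain ⟨i₀, hi₀, h6⟩ := h4 n
  obtain ⟨k₀, hk₀⟩ := (ho _).1 hi₀
  exact ⟨k₀, fun k hk => use (.inr (o, some n)) (.inl (a k)) (h6 _ (hk₀.le.trans (h2 hk))) k⟩

theorem large_fiber {J α : Type} {c : Cardinal.{0}} (hc : ℵ₀ ≤ c) {S : Set J} (hS : c < #S)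
    (f : J → α) (hα : #α ≤ c) : ∃ a, c < #{j | j ∈ S ∧ f j = a} := by
  by_contra! h
  refine hS.not_ge ((mk_le_mk_of_subset (t := ⋃ a ∈ (univ : Set α), {j | j ∈ S ∧ f j = a})
    fun j hj => mem_biUnion (mem_univ (f j)) ⟨hj, rfl⟩).trans ?_)
  exact mk_biUnion_le_of_le hc (by simpa using hα) fun a _ => h a

/-- no large matrix of incomparable levels that are different in each row and in each column -/
theorem no_matrix (hV : VeqL.{0}) {I J : Type} (hI : #I = ℵ₁) (hJ : 2 ^ ℵ₁ < #J) (X : J → Ob)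
    (Y : I → Ob) (N : I → J → Ordinal.{0}) (hN : ∀ i, Function.Injective (N i))
    (hN' : ∀ j, Function.Injective fun i => N i j)
    (hi : ∀ i j i' j', N i j < N i' j' → Inc (X j) (Y i) (N i j) (N i' j')) : False := by
  have hc : (ℵ₀ : Cardinal.{0}) ≤ 2 ^ ℵ₁ := (aleph0_le_aleph 1).trans (cantor _).le
  have hne : {a : Ordinal.{0} | ∃ (I' : Set I) (J' : Set J), ¬ I'.Countable ∧ 2 ^ ℵ₁ < #J' ∧
      ∀ i ∈ I', ∀ j ∈ J', N i j < a}.Nonempty := by
    refine ⟨(⨆ p : I × J, N p.1 p.2) + 1, univ, univ, ?_, by simpa using hJ, fun i _ j _ =>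
      (Ordinal.le_iSup (fun p : I × J => N p.1 p.2) (i, j)).trans_lt (lt_add_one _)⟩
    rw [← le_aleph0_iff_set_countable, mk_univ, hI]
    exact aleph0_lt_aleph_one.not_ge
  obtain ⟨a, ⟨I', J', hI', hJ', ha⟩, hmin⟩ := wellFounded_lt.has_min _ hne
  have hnon : ∀ S : Set J, 2 ^ ℵ₁ < #S → S.Infinite := fun S hS =>
    infinite_coe_iff.1 (infinite_iff.2 (hc.trans hS.le))
  have small : ∀ d < a, ∀ S : Set J, 2 ^ ℵ₁ < #S →
      {i | i ∈ I' ∧ ∀ j ∈ S, N i j < d}.Countable := fun d hd S hS => by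
    by_contra h
    exact hmin d ⟨_, S, h, hS, fun i hi => hi.2⟩ hd
  have case1 : ∀ d < a, ¬ ∀ j ∈ J', {i | i ∈ I' ∧ d ≤ N i j}.Countable := fun d hd h => by
    obtain ⟨F, hF⟩ := large_fiber hc hJ' (fun j => {i | i ∈ I' ∧ d ≤ N i j}) (by simp [hI])
    obtain ⟨j₀, hj₀, rfl⟩ := (hnon _ hF).nonempty
    refine hI' (((h j₀ hj₀).union (small d hd _ hF)).mono fun i hi => ?_)
    by_cases h1 : d ≤ N i j₀
    · exact Or.inl ⟨hi, h1⟩
    · refine Or.inr ⟨hi, fun j hj => not_le.1 fun h2 => h1 ?_⟩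
      have h3 : i ∈ {i | i ∈ I' ∧ d ≤ N i j} := ⟨hi, h2⟩
      rw [hj.2] at h3
      exact h3.2
  rcases Ordinal.zero_or_succ_or_isSuccLimit a with rfl | ⟨d, rfl⟩ | hl
  · obtain ⟨j, hj⟩ := (hnon _ hJ').nonempty
    obtain ⟨i, hi⟩ : I'.Nonempty := nonempty_iff_ne_empty.2 fun h => hI' (h ▸ countable_empty)
    exact absurd (ha i hi j hj) (by simp)
  · refine case1 d (Order.lt_succ d) fun j hj => Set.Subsingleton.countable fun i hi i' hi' => ?_
    exact hN' j (((Order.le_of_lt_succ (ha i hi.1 j hj)).antisymm hi.2).trans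
      ((Order.le_of_lt_succ (ha i' hi'.1 j hj)).antisymm hi'.2).symm)
  rcases lt_or_ge ℵ₁ a.cof with h1 | h1
  · obtain ⟨d, hd, h⟩ := exists_bound hV Y (aleph0_lt_aleph_one.trans h1) (hI ▸ h1)
    exact case1 d hd fun j hj => (h (X j) (fun i => N i j) _ (hN' j).injOn
      (fun i hi => ⟨hi.2, ha i hi.1 j hj⟩) fun i _ i' _ => hi i j i' j).countable
  obtain ⟨W, hW, hWc⟩ := Order.exists_cof_eq a.ToType
  rw [Ordinal.cof_toType] at hWc
  let e : W → Ordinal.{0} := fun w => w.1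
  have he : ∀ w, e w < a := fun w => (Ordinal.ToType.toOrd w.1).2
  have he' : ∀ y < a, ∃ w, y < e w := fun y hy => by
    obtain ⟨w, hw, h⟩ := hW (Ordinal.ToType.mk ⟨_, hl.succ_lt hy⟩)
    refine ⟨⟨w, hw⟩, Order.succ_le_iff.1 ?_⟩
    rw [← coe_le_coe, coe_mk] at h
    exact h
  obtain ⟨F, hF⟩ := large_fiber hc hJ' (fun j => {p : I × W | N p.1 j < e p.2}) (by
    rw [mk_set, mk_prod, lift_id, lift_id, hI, hWc]
    exact power_le_power_left two_ne_zero (mul_le_of_le (aleph0_le_aleph 1) le_rfl h1))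
  have hpat : ∀ i w, ∀ j ∈ {j | j ∈ J' ∧ {p : I × W | N p.1 j < e p.2} = F},
      (N i j < e w ↔ (i, w) ∈ F) := fun i w j hj => by rw [← hj.2]; rfl
  rcases le_or_gt a.cof ℵ₀ with h2 | h2
  · have : Countable W := mk_le_aleph0_iff.1 (hWc ▸ h2)
    refine hI' ((countable_iUnion fun w => small _ (he w) _ hF).mono fun i hi => ?_)
    obtain ⟨j₀, hj₀⟩ := (hnon _ hF).nonempty
    obtain ⟨w, hw⟩ := he' _ (ha i hi j₀ hj₀.1)
    exact mem_iUnion.2 ⟨w, hi, fun j hj => (hpat i w j hj).2 ((hpat i w j₀ hj₀).1 hw)⟩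
  let g := (hnon _ hF).natEmbedding _
  obtain ⟨d, hd, h⟩ := exists_bound hV (fun n : ℕ => X (g n).1) h2 (by simpa using h2)
  obtain ⟨w, hw⟩ := he' d hd
  obtain ⟨i, hi1, hi2⟩ := not_subset.1 fun h => hI' ((small _ (he w) _ hF).mono h)
  have h3 : (i, w) ∉ F := fun h => hi2 ⟨hi1, fun j hj => (hpat i w j hj).2 h⟩
  refine infinite_univ (h (Y i) (fun n => N i (g n).1) univ
    (fun m _ n _ e => g.injective (Subtype.ext (hN i e))) (fun n _ => ⟨hw.le.trans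
      (not_lt.1 fun h => h3 ((hpat i w _ (g n).2).1 h)), ha i hi1 _ (g n).2.1⟩)
    fun m _ n _ h => (hi _ _ _ _ h).symm)

end Pool.Agent.Work.MP_667be6_lc.Two
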