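import Pool.Agent.Work.MP_667be6_lc.Two2
import Pool.Agent.Work.MP_667be6_lc.Everywhere

/-!
The colouring with two colours: the colour of a pair of nodes is the message at the largest level
at which the pair is free and the two values code each other.
-/

namespace Pool.Agent.Work.MP_667be6_lc.Two

open Pool.Agent.Lib.Sharp Sq1 Cardinal Set Order

theorem lt_mk_diff {α : Type} {S U : Set α} {c : Cardinal.{0}} (hc : ℵ₀ ≤ c) (hS : c < #S)
    (hU : #U ≤ c) : c < #(S \ U : Set α) := by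
  by_contra! h
  exact hS.not_ge ((mk_le_mk_of_subset (subset_sdiff_union S U)).trans
    ((mk_union_le _ _).trans (add_le_of_le hc h hU)))

theorem exists_code {α β : Type} [Nonempty β] {M : Set α} {B : Set β} {c : Cardinal.{0}}
    (hc : ℵ₀ ≤ c) (hM : c ≤ #M) (hB : #B ≤ c) :
    ∃ f : α → β, ∀ b ∈ B, c ≤ #{y | y ∈ M ∧ f y = b} := by
  classical
  obtain ⟨e⟩ : Nonempty (B × c.out ↪ M) := by
    rw [← Cardinal.le_def, mk_prod, lift_id, lift_id, mk_out]
    exact (mul_le_of_le hc hB le_rfl).trans hM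
  refine ⟨fun y => if h : ∃ t, (e t).1 = y then h.choose.1.1 else Classical.arbitrary β,
    fun b hb => ?_⟩
  refine (mk_out c).ge.trans (mk_le_of_injective
    (f := fun t => ⟨(e (⟨b, hb⟩, t)).1, (e _).2, ?_⟩) fun t t' h => ?_)
  · have h : ∃ s, (e s).1 = (e (⟨b, hb⟩, t)).1 := ⟨_, rfl⟩
    simp only [dif_pos h, e.injective (Subtype.ext h.choose_spec)]
  · have h' := congrArg Subtype.val h
    exact congrArg Prod.snd (e.injective (Subtype.ext h'))

variable {κ : Cardinal.{0}}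

theorem exists_ob (hV : VeqL.{0}) (f : κ.ord.ToType → κ.ord.ToType) :
    ∃ z : Ob, ∀ (a : κ.ord.ToType) (ν : Ordinal.{0}), (a : Ordinal.{0}) < ν →
      (f a : Ordinal.{0}) ∈ K z ν := by
  classical
  obtain ⟨z, -, hz⟩ := exists_fun hV κ.ord fun ξ =>
    if h : ξ < κ.ord then (f (Ordinal.ToType.mk ⟨ξ, h⟩) : Ordinal.{0}) else 0
  refine ⟨z, fun a ν h => ?_⟩
  have h1 : (a : Ordinal.{0}) < κ.ord := (Ordinal.ToType.toOrd a).2
  have := hz a h1 ν h
  rwa [dif_pos h1, show Ordinal.ToType.mk ⟨(a : Ordinal.{0}), h1⟩ = a from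
    Ordinal.ToType.mk.apply_symm_apply a] at this

theorem card_trace (z : Ob) {c : Cardinal.{0}} (hc : ℵ₀ ≤ c) :
    #{y : κ.ord.ToType | (y : Ordinal.{0}) ∈ K z c.ord} ≤ c := by
  rw [← lift_le.{1}]
  have hi : ℵ₀ ≤ Cardinal.lift.{1} c := by simpa using hc
  have h1 : #(K z c.ord) ≤ Cardinal.lift.{1} c := by
    refine (card_hull_le' _ _).trans (max_le ((mk_union_le _ _).trans (add_le_of_le hi ?_
      (mk_le_aleph0.trans hi))) hi)
    rw [mk_Iio_ordinal, card_ord]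
  refine le_trans ?_ h1
  have := Cardinal.lift_mk_le'.2 ⟨⟨fun y : {y : κ.ord.ToType | (y : Ordinal.{0}) ∈ K z c.ord} =>
    (⟨y.1, y.2⟩ : K z c.ord), fun y y' h => Subtype.ext (le_antisymm
      (coe_le_coe.1 (congrArg Subtype.val h).le) (coe_le_coe.1 (congrArg Subtype.val h).ge))⟩⟩
  rwa [Cardinal.lift_id'.{0, 1}] at this

theorem not_HL_two (hV : VeqL.{0}) (hκ : κ.IsStrongLimit) (h0 : ℵ₀ < κ) {d : ℕ} (hd : 2 ≤ d)
    {σ : Cardinal.{0}} (hσ : 2 ≤ σ) : ¬ HL d σ κ := by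
  classical
  obtain ⟨E, M, ν, hE, hmono, hinf, hνκ, hM, hM', hW, -, hlow, hup⟩ := exists_params hκ h0
  have : NoMaxOrder κ.ord.ToType := Cardinal.noMaxOrder h0.le
  have : Nonempty (κ.ord.ToType → κ.ord.ToType) := ⟨id⟩
  have hnt : ∀ a ∈ E, (M a).Nontrivial := fun a ha => by
    rw [← Set.nontrivial_coe_sort, ← Cardinal.one_lt_iff_nontrivial]
    exact (one_lt_aleph0.trans_le ((hinf a).trans ((le_succ _).trans (le_succ _)))).trans_le
      (hM a ha)
  have hne : ∀ a, (M a).Nonempty := fun a => by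
    by_cases ha : a ∈ E
    · exact (hnt a ha).nonempty
    · rw [hM' a ha]; exact singleton_nonempty a
  have hreg : IsRegularTree (full M) := by
    refine full_regular hne (fun a => ?_) fun a => ((mk_P_le M a).trans (hW a)).trans_lt (hνκ a)
    obtain ⟨b, hb, hab⟩ := hE a
    exact ⟨b, hab, hnt b hb⟩
  have hIW : ∀ a, 2 ^ #(Iio a) ≤ ν a := fun a => by
    refine (power_le_power_left two_ne_zero (mk_le_of_injective
      (f := fun b : Iio a => (⟨(b.1, (hne b.1).some), b.2, (hne b.1).some_mem⟩ : W M a))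
      fun b b' h => Subtype.ext (congrArg (fun p => p.1.1) h))).trans (hW a)
  have hn : ∀ a : κ.ord.ToType, (a : Ordinal.{0}) < (ν a).ord := fun a =>
    Cardinal.lt_ord.2 ((cantor _).trans_le (hIW a))
  have hstrict : ∀ a ∈ E, ∀ b, a < b → (ν a).ord < (ν b).ord := fun a ha b hab =>
    Cardinal.ord_lt_ord.2 ((hlow a ha _ (hne a).some_mem).trans_lt
      (hup a ha b hab _ (hne a).some_mem))
  have hinj : InjOn (fun a => (ν a).ord) E := fun a ha b hb h => by
    rcases lt_trichotomy a b with h' | h' | h'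
    · exact absurd h (hstrict a ha b h').ne
    · exact h'
    · exact absurd h (hstrict b hb a h').ne'
  choose O hO using exists_ob (κ := κ) hV
  let G : (κ.ord.ToType → κ.ord.ToType) → κ.ord.ToType → Set κ.ord.ToType := fun f a =>
    {y | (y : Ordinal.{0}) ∈ K (O f) (ν a).ord}
  have hG : ∀ f a, #(G f a) ≤ ν a := fun f a => card_trace _ (hinf a)
  have hcode : ∀ a, ∃ cd : κ.ord.ToType → (κ.ord.ToType → κ.ord.ToType) × Bool, a ∈ E →
      ∀ b ∈ P M a ×ˢ (univ : Set Bool), succ (succ (ν a)) ≤ #{y | y ∈ M a ∧ cd y = b} := by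
    intro a
    by_cases ha : a ∈ E
    · have h1 : ν a ≤ succ (succ (ν a)) := (le_succ _).trans (le_succ _)
      obtain ⟨cd, h⟩ := exists_code (B := P M a ×ˢ (univ : Set Bool)) ((hinf a).trans h1) (hM a ha)
        (by
          rw [mk_setProd]
          exact (mul_le_of_le (hinf a) ((mk_P_le M a).trans (hW a))
            (mk_le_aleph0.trans (hinf a))).trans h1)
      exact ⟨cd, fun _ => h⟩
    · exact ⟨fun _ => (id, true), fun h => (ha h).elim⟩
  choose cd hcd using hcode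
  let AF : κ.ord.ToType → (κ.ord.ToType → κ.ord.ToType) → (κ.ord.ToType → κ.ord.ToType) →
      Set κ.ord.ToType := fun β f g => {a | a ∈ E ∧ a < β ∧ (cd a (f a)).1 = res a g ∧
        (cd a (g a)).1 = res a f ∧ f a ∉ G g a ∧ g a ∉ G f a}
  have hInc : ∀ β f g, (∀ i < β, f i ∈ M i) → (∀ i < β, g i ∈ M i) → ∀ a ∈ AF β f g, ∀ b,
      (ν a).ord < (ν b).ord → Inc (O f) (O g) (ν a).ord (ν b).ord := by
    intro β f g hf hg a ha b hab
    have hab' : a < b := not_le.1 fun h => (Cardinal.ord_le_ord.2 (hmono h)).not_gt hab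
    exact ⟨fun h => ha.2.2.2.2.1 (h ⟨hO f a _ (hn a),
        mem_Iio.2 (Cardinal.lt_ord.2 (hup a ha.1 b hab' _ (hf a ha.2.1)))⟩),
      fun h => ha.2.2.2.2.2 (h ⟨hO g a _ (hn a),
        mem_Iio.2 (Cardinal.lt_ord.2 (hup a ha.1 b hab' _ (hg a ha.2.1)))⟩)⟩
  have key : ∀ {A : Set κ.ord.ToType} {Q Q' : κ.ord.ToType → Set (κ.ord.ToType → κ.ord.ToType)},
      Rich M A Q → Rich M A Q' → ∀ a ∈ A, a ∈ E → 2 ^ ℵ₁ ≤ ν a → ∀ β, a < β → ∀ k : Bool,
      ∃ f ∈ Q β, ∃ g ∈ Q' β, a ∈ AF β f g ∧ (∀ b ∈ AF β f g, b ≤ a) ∧ (cd a (f a)).2 = k := by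
    intro A Q Q' hQ hQ' a haA haE hνa β hβ k
    obtain ⟨f₀, hf₀⟩ := hQ.nonempty a
    obtain ⟨g₀, hg₀⟩ := hQ'.nonempty a
    choose! X hX using hQ.ext a haA β hβ f₀ hf₀
    choose! Y hY using hQ'.ext a haA β hβ g₀ hg₀
    have hP : ∀ f : κ.ord.ToType → κ.ord.ToType, (∀ i < a, f i ∈ M i) → res a f ∈ P M a :=
      fun f hf => ⟨fun i hi => by rw [res_of_lt hi]; exact hf i hi, fun i hi => if_neg hi⟩
    have hres : ∀ f g : κ.ord.ToType → κ.ord.ToType, (∀ i < a, f i = g i) → res a f = res a g :=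
      fun f g h => funext fun i => by
        by_cases hi : i < a
        · rw [res_of_lt hi, res_of_lt hi, h i hi]
        · exact (if_neg hi).trans (if_neg hi).symm
    have hB := hcd a haE (res a g₀, k) ⟨hP _ (hQ'.mem a g₀ hg₀), mem_univ _⟩
    have hB' := hcd a haE (res a f₀, k) ⟨hP _ (hQ.mem a f₀ hf₀), mem_univ _⟩
    have h1 : ℵ₁ ≤ ν a := (cantor _).le.trans hνa
    obtain ⟨U₀, hU₀, hUc⟩ := le_mk_iff_exists_subset.1 ((le_succ _).trans hB)
    obtain ⟨I, hI, hIc⟩ := le_mk_iff_exists_subset.1 ((h1.trans (le_succ _)).trans (lt_mk_diff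
      (U := ⋃ u ∈ U₀, G (X u) a) ((hinf a).trans (le_succ _)) ((lt_succ _).trans_le hB')
      (mk_biUnion_le_of_le ((hinf a).trans (le_succ _)) hUc.le
        fun u _ => (hG _ a).trans (le_succ _))).le)
    have hJ := lt_mk_diff (U := ⋃ v ∈ I, G (Y v) a) (hinf a) ((lt_succ _).trans_eq hUc.symm)
      (mk_biUnion_le_of_le (hinf a) (hIc.le.trans h1) fun v _ => hG _ a)
    by_contra! hcon
    have hex : ∀ (v : I) (u : (U₀ \ ⋃ v ∈ I, G (Y v) a : Set κ.ord.ToType)),
        ∃ b ∈ AF β (X u) (Y v), a < b := by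
      intro v u
      have hu := hU₀ u.2.1
      have hv := (hI v.2).1
      have h2 : a ∈ AF β (X u) (Y v) := by
        refine ⟨haE, hβ, ?_, ?_, ?_, ?_⟩
        · rw [(hX u hu.1).2.2, hu.2, hres _ _ (hY v hv.1).2.1]
        · rw [(hY v hv.1).2.2, hv.2, hres _ _ (hX u hu.1).2.1]
        · rw [(hX u hu.1).2.2]
          exact fun h => u.2.2 (mem_biUnion v.2 h)
        · rw [(hY v hv.1).2.2]
          exact fun h => (hI v.2).2 (mem_biUnion u.2.1 h)
      by_contra! h3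
      exact hcon _ (hX u hu.1).1 _ (hY v hv.1).1 h2 h3 (by rw [(hX u hu.1).2.2, hu.2])
    choose b hb hab using hex
    refine no_matrix hV hIc (hνa.trans_lt hJ) (fun u => O (X u)) (fun v => O (Y v))
      (fun v u => (ν (b v u)).ord) (fun v u u' h => ?_) (fun u v v' h => ?_)
      fun v u v' u' h => hInc β _ _ (hQ.mem β _ (hX u (hU₀ u.2.1).1).1)
        (hQ'.mem β _ (hY v (hI v.2).1.1).1) _ (hb v u) _ h
    · have e := hinj (hb v u).1 (hb v u').1 h
      have h2 := (hb v u').2.2.2.1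
      rw [← e, (hb v u).2.2.2.1] at h2
      have h3 := congrFun h2 a
      rw [res_of_lt (hab v u), res_of_lt (hab v u), (hX u (hU₀ u.2.1).1).2.2,
        (hX u' (hU₀ u'.2.1).1).2.2] at h3
      exact Subtype.ext h3
    · have e := hinj (hb v u).1 (hb v' u).1 h
      have h2 := (hb v' u).2.2.1
      rw [← e, (hb v u).2.2.1] at h2
      have h3 := congrFun h2 a
      rw [res_of_lt (hab v u), res_of_lt (hab v u), (hY v (hI v.2).1.1).2.2,
        (hY v' (hI v'.2).1.1).2.2] at h3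
      exact Subtype.ext h3
  have : Nontrivial σ.ord.ToType := by
    rw [← Cardinal.one_lt_iff_nontrivial, mk_ord_toType]
    exact Cardinal.one_lt_two.trans_le hσ
  obtain ⟨s₀, s₁, hs⟩ := exists_pair_ne σ.ord.ToType
  let i₀ : Fin d := ⟨0, by omega⟩
  let i₁ : Fin d := ⟨1, by omega⟩
  let col : κ.ord.ToType → (κ.ord.ToType → κ.ord.ToType) → (κ.ord.ToType → κ.ord.ToType) → Prop :=
    fun β f g => ∃ a ∈ AF β f g, (∀ b ∈ AF β f g, b ≤ a) ∧ (cd a (f a)).2 = true
  intro hHL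
  obtain ⟨A, hA, T', hT', k, hk⟩ := hHL (fun _ => full M) (fun _ => hreg) fun x =>
    if col (x.1 i₀).len (x.1 i₀).tot (x.1 i₁).tot then s₁ else s₀
  have h1 : ℵ₁ < κ := by
    rw [← succ_aleph0]
    exact hκ.isSuccLimit.succ_lt h0
  obtain ⟨a, haA, hza, hnt'⟩ := (hT' i₀).exists_branching
    (Ordinal.ToType.mk ⟨_, Cardinal.ord_lt_ord.2 h1⟩)
  have haE : a ∈ E := by
    by_contra h
    rw [hM' a h] at hnt'
    exact Set.not_nontrivial_singleton hnt'
  have hνa : 2 ^ ℵ₁ ≤ ν a := by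
    refine (power_le_power_left two_ne_zero ?_).trans (hIW a)
    refine le_trans (le_of_eq ?_) (mk_le_mk_of_subset (Iio_subset_Iio hza))
    rw [mk_Iio_eq_card, coe_mk, card_ord]
  obtain ⟨z, hz⟩ := exists_gt a
  obtain ⟨β, hβA, hzβ⟩ := hA z
  have main : ∀ m : Bool, (if m = true then s₁ else s₀) = k := by
    intro m
    obtain ⟨_, ⟨p, hp, rfl⟩, _, ⟨q, hq, rfl⟩, h2, h3, h4⟩ :=
      key (rich_of_strong (hT' i₀)) (rich_of_strong (hT' i₁)) a haA haE hνa β (hz.trans_le hzβ) m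
    choose r hr using fun i => (hT' i).regular.height β
    let x : Fin d → Node κ := fun i => if i = i₀ then p else if i = i₁ then q else r i
    have h01 : i₁ ≠ i₀ := by simp [i₀, i₁]
    have hx0 : x i₀ = p := by simp [x]
    have hx1 : x i₁ = q := by simp [x, h01]
    have hx : ∀ i, x i ∈ level (T' i) β := by
      intro i
      simp only [x]
      split_ifs with h1 h2
      · rw [h1]; exact hp
      · rw [h2]; exact hq
      · exact hr i
    have hx' : x ∈ levelProd fun _ : Fin d => full M :=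
      ⟨β, fun i => ⟨(hT' i).subset (hx i).1, (hx i).2⟩⟩
    rw [← hk ⟨x, hx'⟩ ⟨β, hβA, hx⟩]
    simp only [hx0, hx1, hp.2]
    refine if_congr ⟨fun h => ⟨a, h2, h3, h4.trans h⟩, ?_⟩ rfl rfl
    rintro ⟨a', h5, h6, h7⟩
    rw [← h4, ← (h3 a' h5).antisymm (h6 a h2), h7]
  exact hs ((main false).trans (main true).symm)

end Pool.Agent.Work.MP_667be6_lc.Two
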